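import Pool.Agent.N410.LD.Parts
import Pool.Agent.TH559.LE.Dense
import Pool.Agent.H162R2.AG.R

/-!
# Local list edge colourings with an error term of order `√D` up to logarithms
-/

set_option autoImplicit false

namespace Pool.Agent.N410.LD

open Finset Pool.Agent.TH559.LE

/-- The edges of all graphs on `n` vertices can be coloured if the list of the edge `u v` has at
least `(1 + θ) w u + a` members, where `w` bounds the degrees. -/
def LW (n : ℕ) (θ a : ℝ) : Prop :=
  ∀ (G : SimpleGraph (Fin n)) (w : Fin n → ℝ) (L : Sym2 (Fin n) → Finset ℕ),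
    (∀ u, (dg G u : ℝ) ≤ w u) →
    (∀ u v, G.Adj u v → (1 + θ) * w u + a ≤ (L s(u, v)).card) → ∃ c, Ok G L c

theorem LW_base (n : ℕ) (θ a : ℝ) (hθ : 1 ≤ θ) (ha : 0 ≤ a) : LW n θ a := by
  intro G w L hw hL
  apply greedy G ⊥ bot_le L (ok_bot L)
  intro u v huv _
  have h1 := hL u v huv
  have h2 := hL v u huv.symm
  rw [Sym2.eq_swap] at h2
  have h3 := hw u
  have h4 := hw v
  have h5 : (0 : ℝ) ≤ w u := le_trans (Nat.cast_nonneg _) h3
  have h6 : (0 : ℝ) ≤ w v := le_trans (Nat.cast_nonneg _) h4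
  have h7 : (dg G u : ℝ) + dg G v ≤ (L s(u, v)).card + 1 := by
    nlinarith
  exact_mod_cast h7

/-- the key inequality for the deviations -/
theorem dev_le {C lam θ a η m : ℝ} (hC : 1 ≤ C) (hlam : 0 ≤ lam) (hθ0 : 0 < θ) (hθ1 : θ ≤ 1)
    (ha : 0 ≤ a) (hη0 : 0 < η) (hη1 : η ≤ 1) (hm : 0 ≤ m)
    (h : 256 * C ^ 2 * lam ≤ θ * a * η ^ 2) :
    C * Real.sqrt ((m + a) * lam) + C * lam ≤ η / 8 * (θ * m + a) := by
  have h1 : C * Real.sqrt ((m + a) * lam) ≤ η / 16 * (θ * m + a) := by
    have h2 : (m + a) * lam ≤ (η / (16 * C) * (θ * m + a)) ^ 2 := by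
      have h3 : θ * a * (m + a) ≤ (θ * m + a) ^ 2 := by
        have : 0 ≤ θ * m * a := by positivity
        have h4 : θ * a * a ≤ a * a := by
          have : θ * a ≤ 1 * a := mul_le_mul_of_nonneg_right hθ1 ha
          nlinarith
        nlinarith [sq_nonneg (θ * m)]
      have h5 : 256 * C ^ 2 * lam * (m + a) ≤ η ^ 2 * (θ * m + a) ^ 2 := by
        have h6 : 256 * C ^ 2 * lam * (m + a) ≤ θ * a * η ^ 2 * (m + a) :=
          mul_le_mul_of_nonneg_right h (by positivity)
        have h7 : η ^ 2 * (θ * a * (m + a)) ≤ η ^ 2 * (θ * m + a) ^ 2 :=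
          mul_le_mul_of_nonneg_left h3 (by positivity)
        nlinarith
      have h8 : (η / (16 * C) * (θ * m + a)) ^ 2 = η ^ 2 * (θ * m + a) ^ 2 / (256 * C ^ 2) := by
        field_simp
        ring
      rw [h8, le_div_iff₀ (by positivity)]
      nlinarith
    have h9 : Real.sqrt ((m + a) * lam) ≤ η / (16 * C) * (θ * m + a) := by
      apply Real.sqrt_le_iff.2
      exact ⟨by positivity, h2⟩
    calc C * Real.sqrt ((m + a) * lam) ≤ C * (η / (16 * C) * (θ * m + a)) :=
          mul_le_mul_of_nonneg_left h9 (by linarith)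
      _ = η / 16 * (θ * m + a) := by
          field_simp
  have h2 : C * lam ≤ η / 16 * (θ * m + a) := by
    have h3 : θ * a * η ^ 2 ≤ η * a := by
      have h4 : θ * a * η ^ 2 = (θ * η) * (η * a) := by ring
      have h5 : θ * η ≤ 1 := by nlinarith
      rw [h4]
      have h6 : 0 ≤ η * a := by positivity
      nlinarith
    have h4 : 16 * C * lam ≤ 256 * C ^ 2 * lam := by
      have : 16 * C ≤ 256 * C ^ 2 := by nlinarith
      exact mul_le_mul_of_nonneg_right this hlam
    have h5 : 0 ≤ η * (θ * m) := by positivity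
    nlinarith
  linarith

open Classical in
theorem LW_step {C : ℝ} (hC : 1 ≤ C)
    (hR : ∀ n : ℕ, 2 ≤ n → ∀ p : ℝ, 0 ≤ p → p ≤ 1 →
      ∀ L : Fin n → Fin n → Finset ℕ, ∃ R : Finset ℕ, ∀ v w,
        |((L v w ∩ R).card : ℝ) - p * (L v w).card| ≤
          C * Real.sqrt (p * (L v w).card * Real.log n) + C * Real.log n)
    (n : ℕ) (hn : 2 ≤ n) (θ a η : ℝ) (hθ0 : 0 < θ) (hθ1 : θ ≤ 1) (ha : 0 ≤ a) (hη0 : 0 < η)
    (hη1 : η ≤ 1) (hbig : 256 * C ^ 2 * Real.log n ≤ θ * a * η ^ 2)
    (h : LW n (2 * θ * (1 - η)) (a * (1 - η) / 2)) : LW n θ a := by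
  intro G w L hw hL
  have hlam : 0 < Real.log n := Real.log_pos (by exact_mod_cast hn)
  set lam : ℝ := Real.log n with hlamdef
  have hw0 : ∀ u, 0 ≤ w u := fun u => le_trans (Nat.cast_nonneg _) (hw u)
  set E : ℝ → ℝ := fun m => C * Real.sqrt ((m + a) * lam) + C * lam with hE
  have hEmono : ∀ x y, 0 ≤ x → x ≤ y → E x ≤ E y := by
    intro x y hx hxy
    have : Real.sqrt ((x + a) * lam) ≤ Real.sqrt ((y + a) * lam) := by
      apply Real.sqrt_le_sqrt
      apply mul_le_mul_of_nonneg_right _ hlam.le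
      linarith
    have h2 := mul_le_mul_of_nonneg_left this (by linarith : (0 : ℝ) ≤ C)
    simp only [hE]
    linarith
  have hkey : ∀ m, 0 ≤ m → E m ≤ η / 8 * (θ * m + a) := fun m hm =>
    dev_le hC hlam.le hθ0 hθ1 ha hη0 hη1 hm hbig
  have ha1 : 1 ≤ a := by
    have h1 : θ * a * η ^ 2 ≤ a := by
      have h4 : θ * a * η ^ 2 = (θ * η ^ 2) * a := by ring
      have h5 : θ * η ^ 2 ≤ 1 := by nlinarith
      rw [h4]
      nlinarith
    have h2 : (1 / 2 : ℝ) ≤ lam := by
      have h3 : Real.log 2 ≤ lam := Real.log_le_log (by norm_num) (by exact_mod_cast hn)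
      have := Real.log_two_gt_d9
      linarith
    nlinarith
  -- the vertices
  obtain ⟨RV, hRV⟩ := hR n hn (1 / 2) (by norm_num) (by norm_num)
    (fun u _ => (univ.filter (fun v => G.Adj u v)).map Fin.valEmbedding)
  set A : Finset (Fin n) := univ.filter (fun x => (x : ℕ) ∈ RV) with hA
  have hdeg : ∀ u, (dg (inn G A) u : ℝ) ≤ w u / 2 + E (w u) ∧
      (dg (crs G A) u : ℝ) ≤ w u / 2 + E (w u) := by
    intro u
    have h1 := hRV u u
    have e1 : (((univ.filter (fun v => G.Adj u v)).map Fin.valEmbedding) ∩ RV).card =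
        (univ.filter (fun v => G.Adj u v ∧ v ∈ A)).card := by
      rw [← card_map Fin.valEmbedding (s := univ.filter (fun v => G.Adj u v ∧ v ∈ A))]
      congr 1
      ext x
      simp only [mem_inter, mem_map, mem_filter, mem_univ, true_and, Fin.valEmbedding_apply, hA]
      constructor
      · rintro ⟨⟨v, hv, rfl⟩, hx⟩
        exact ⟨v, ⟨hv, hx⟩, rfl⟩
      · rintro ⟨v, ⟨hv, hx⟩, rfl⟩
        exact ⟨⟨v, hv, rfl⟩, hx⟩
    simp only [e1, card_map, ← dg_eq] at h1
    have e2 : (univ.filter (fun v => G.Adj u v ∧ v ∈ A)).card +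
        (univ.filter (fun v => G.Adj u v ∧ v ∉ A)).card = dg G u := by
      rw [dg_eq, ← filter_filter, ← filter_filter]
      exact card_filter_add_card_filter_not _
    have e2' : ((univ.filter (fun v => G.Adj u v ∧ v ∈ A)).card : ℝ) +
        (univ.filter (fun v => G.Adj u v ∧ v ∉ A)).card = dg G u := by exact_mod_cast e2
    have h2 : C * Real.sqrt (1 / 2 * (dg G u : ℝ) * lam) + C * lam ≤ E (w u) := by
      have : Real.sqrt (1 / 2 * (dg G u : ℝ) * lam) ≤ Real.sqrt ((w u + a) * lam) := by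
        apply Real.sqrt_le_sqrt
        apply mul_le_mul_of_nonneg_right _ hlam.le
        have := hw u
        have := hw0 u
        linarith
      have h3 := mul_le_mul_of_nonneg_left this (by linarith : (0 : ℝ) ≤ C)
      simp only [hE]
      linarith
    have h3 := abs_le.1 (h1.trans h2)
    have h4 := hw u
    have c1 : ((univ.filter (fun v => G.Adj u v ∧ v ∈ A)).card : ℝ) ≤ w u / 2 + E (w u) := by
      linarith [h3.2]
    have c2 : ((univ.filter (fun v => G.Adj u v ∧ v ∉ A)).card : ℝ) ≤ w u / 2 + E (w u) := by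
      linarith [h3.1]
    by_cases hu : u ∈ A
    · have d1 : dg (inn G A) u = (univ.filter (fun v => G.Adj u v ∧ v ∈ A)).card := by
        rw [dg_eq]
        congr 1
        ext v
        simp only [mem_filter, mem_univ, true_and, inn]
        tauto
      have d2 : dg (crs G A) u = (univ.filter (fun v => G.Adj u v ∧ v ∉ A)).card := by
        rw [dg_eq]
        congr 1
        ext v
        simp only [mem_filter, mem_univ, true_and, crs]
        tauto
      rw [d1, d2]
      exact ⟨c1, c2⟩
    · have d1 : dg (inn G A) u = (univ.filter (fun v => G.Adj u v ∧ v ∉ A)).card := by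
        rw [dg_eq]
        congr 1
        ext v
        simp only [mem_filter, mem_univ, true_and, inn]
        tauto
      have d2 : dg (crs G A) u = (univ.filter (fun v => G.Adj u v ∧ v ∈ A)).card := by
        rw [dg_eq]
        congr 1
        ext v
        simp only [mem_filter, mem_univ, true_and, crs]
        tauto
      rw [d1, d2]
      exact ⟨c2, c1⟩
  -- the truncated lists
  set mm : Sym2 (Fin n) → ℝ := Sym2.lift ⟨fun u v => max (w u) (w v), fun u v => max_comm _ _⟩
    with hmm
  have hmme : ∀ u v, mm s(u, v) = max (w u) (w v) := fun u v => rfl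
  have hex : ∀ z, ∃ s ⊆ L z, s.card = min (L z).card ⌈(1 + θ) * mm z + a⌉₊ := fun z =>
    Finset.exists_subset_card_eq (min_le_left _ _)
  choose L' hL'1 hL'2 using hex
  have hL'3 : ∀ u v, G.Adj u v → (L' s(u, v)).card = ⌈(1 + θ) * mm s(u, v) + a⌉₊ := by
    intro u v huv
    rw [hL'2]
    apply min_eq_right
    rw [Nat.ceil_le, hmme]
    have h1 := hL u v huv
    have h2 := hL v u huv.symm
    rw [Sym2.eq_swap] at h2
    rcases max_choice (w u) (w v) with h3 | h3
    · rw [h3]
      exact h1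
    · rw [h3]
      exact h2
  set p : ℝ := (1 + η * θ / 2) / (2 * (1 + θ)) with hp
  have hp1 : p * (1 + θ) = 1 / 2 + η * θ / 4 := by
    rw [hp]; field_simp; ring
  have hp0 : 0 ≤ p := by positivity
  have hp2 : p ≤ 1 / 2 := by
    rw [hp, div_le_iff₀ (by positivity)]
    nlinarith
  have hp3 : 1 / 4 ≤ p := by
    rw [hp, le_div_iff₀ (by positivity)]
    have : 0 ≤ η * θ := by positivity
    linarith
  obtain ⟨R, hRR⟩ := hR n hn p hp0 (by linarith) (fun u v => L' s(u, v))
  have hcard : ∀ u v, G.Adj u v →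
      p * ((1 + θ) * max (w u) (w v) + a) - E (max (w u) (w v)) ≤ (L' s(u, v) ∩ R).card ∧
      (1 - p) * ((1 + θ) * max (w u) (w v) + a) - E (max (w u) (w v)) ≤
        (L' s(u, v) \ R).card := by
    intro u v huv
    have h1 := hRR u v
    set m : ℝ := max (w u) (w v) with hm
    have hm0 : 0 ≤ m := le_trans (hw0 u) (le_max_left _ _)
    have h2 : (1 + θ) * m + a ≤ (L' s(u, v)).card := by
      rw [hL'3 u v huv, hmme]
      exact Nat.le_ceil _
    have h3 : ((L' s(u, v)).card : ℝ) ≤ (1 + θ) * m + a + 1 := by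
      rw [hL'3 u v huv, hmme]
      exact (Nat.ceil_lt_add_one (by positivity)).le
    have h4 : p * ((L' s(u, v)).card : ℝ) ≤ m + a := by
      have : p * ((L' s(u, v)).card : ℝ) ≤ 1 / 2 * ((1 + θ) * m + a + 1) := by
        apply mul_le_mul hp2 h3 (Nat.cast_nonneg _) (by norm_num)
      nlinarith
    have h5 : C * Real.sqrt (p * (L' s(u, v)).card * lam) + C * lam ≤ E m := by
      have : Real.sqrt (p * (L' s(u, v)).card * lam) ≤ Real.sqrt ((m + a) * lam) := by
        apply Real.sqrt_le_sqrt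
        exact mul_le_mul_of_nonneg_right h4 hlam.le
      have h6 := mul_le_mul_of_nonneg_left this (by linarith : (0 : ℝ) ≤ C)
      simp only [hE]
      linarith
    have h6 := abs_le.1 (h1.trans h5)
    have h7 : ((L' s(u, v) ∩ R).card : ℝ) + (L' s(u, v) \ R).card = (L' s(u, v)).card := by
      have := card_inter_add_card_sdiff (L' s(u, v)) R
      exact_mod_cast this
    have h8 := mul_le_mul_of_nonneg_left h2 hp0
    have h9 := mul_le_mul_of_nonneg_left h2 (by linarith : (0 : ℝ) ≤ 1 - p)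
    constructor
    · linarith [h6.1]
    · linarith [h6.2]
  have hle : ∀ u v, w u / 2 + E (w u) ≤ max (w u) (w v) / 2 + E (max (w u) (w v)) := by
    intro u v
    have h1 := hEmono (w u) (max (w u) (w v)) (hw0 u) (le_max_left _ _)
    have h2 := le_max_left (w u) (w v)
    linarith
  -- the edges within the sides
  obtain ⟨c1, hc1⟩ := h (inn G A) (fun u => w u / 2 + E (w u)) (fun z => L' z \ R)
    (fun u => (hdeg u).1) (by
      intro u v huv
      have h1 := (hcard u v huv.1).2
      have h2 := hle u v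
      set m : ℝ := max (w u) (w v) with hm
      have hm0 : 0 ≤ m := le_trans (hw0 u) (le_max_left _ _)
      have h3 := hkey m hm0
      have hE0 : 0 ≤ E m := by
        simp only [hE]
        positivity
      have h4 : (1 + 2 * θ * (1 - η)) * (w u / 2 + E (w u)) ≤
          (1 + 2 * θ * (1 - η)) * (m / 2 + E m) := by
        apply mul_le_mul_of_nonneg_left h2
        have : 0 ≤ 2 * θ * (1 - η) := by
          have : 0 ≤ 1 - η := by linarith
          positivity
        linarith
      have h5 : (1 - p) * ((1 + θ) * m + a) = (1 + θ) * m - (1 / 2 + η * θ / 4) * m +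
          (1 - p) * a := by
        rw [← hp1]; ring
      have h6 : a / 2 ≤ (1 - p) * a := by nlinarith
      have h7 : 2 * θ * (1 - η) * E m ≤ 2 * E m := by
        have : 2 * θ * (1 - η) ≤ 2 := by nlinarith
        exact mul_le_mul_of_nonneg_right this hE0
      have h8 : 0 ≤ η * (θ * m) := by positivity
      show (1 + 2 * θ * (1 - η)) * (w u / 2 + E (w u)) + a * (1 - η) / 2 ≤ _
      nlinarith)
  -- the edges between the sides
  obtain ⟨c0, hc0⟩ := ok_bot (V := Fin n) (fun z => L' z ∩ R)
  obtain ⟨c2, hc2⟩ := ext ⊥ (crs G A) bot_le (fun u => u ∈ A)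
    (fun u v huv _ => by
      have := huv.2
      tauto)
    (fun z => L' z ∩ R) (by
      intro u v huv _
      rw [dg_bot, add_zero]
      have h1 := (hcard u v huv.1).1
      have h2 := hle u v
      have h0 := (hdeg u).2
      set m : ℝ := max (w u) (w v) with hm
      have hm0 : 0 ≤ m := le_trans (hw0 u) (le_max_left _ _)
      have h3 := hkey m hm0
      have h5 : p * ((1 + θ) * m + a) = (1 / 2 + η * θ / 4) * m + p * a := by
        rw [← hp1]; ring
      have h6 : a / 4 ≤ p * a := by nlinarith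
      have h7 : η * a ≤ a := by nlinarith
      have h8 : (dg (crs G A) u : ℝ) ≤ (L' s(u, v) ∩ R).card := by
        nlinarith
      exact_mod_cast h8) c0 hc0
  refine ok_union G (inn G A) (crs G A) L (fun z => L' z \ R) (fun z => L' z ∩ R) R ?_ ?_ ?_
    c1 c2 hc1 hc2
  · intro u v huv
    by_cases hc : u ∈ A ↔ v ∈ A
    · exact Or.inl ⟨huv, hc⟩
    · exact Or.inr ⟨huv, hc⟩
  · intro z
    exact Finset.sdiff_subset_sdiff (hL'1 z) (Finset.Subset.refl _)
  · intro z
    exact Finset.inter_subset_inter (hL'1 z) (Finset.Subset.refl _)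

end Pool.Agent.N410.LD
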