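import Pool.Agent.N410.LD.LocalS

/-!
# The local theorem, and the extension lemma with local lists
-/

set_option autoImplicit false

namespace Pool.Agent.N410.LD

open Finset Pool.Agent.TH559.LE

theorem LW_all {C : ℝ} (hC : 1 ≤ C)
    (hR : ∀ n : ℕ, 2 ≤ n → ∀ p : ℝ, 0 ≤ p → p ≤ 1 →
      ∀ L : Fin n → Fin n → Finset ℕ, ∃ R : Finset ℕ, ∀ v w,
        |((L v w ∩ R).card : ℝ) - p * (L v w).card| ≤
          C * Real.sqrt (p * (L v w).card * Real.log n) + C * Real.log n)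
    (n : ℕ) (hn : 2 ≤ n) (η : ℝ) (hη0 : 0 < η) (hη1 : η ≤ 1 / 2) :
    ∀ (r : ℕ) (θ a : ℝ), 0 < θ → 0 ≤ a → 1 ≤ 2 ^ r * (1 - η) ^ r * θ →
      256 * C ^ 2 * Real.log n ≤ θ * a * η ^ 2 * (1 - η) ^ (2 * r) → LW n θ a := by
  intro r
  induction r with
  | zero =>
    intro θ a hθ0 ha h1 _
    apply LW_base n θ a _ ha
    simpa using h1
  | succ r ih =>
    intro θ a hθ0 ha h1 h2
    by_cases hθ1 : 1 ≤ θ
    · exact LW_base n θ a hθ1 ha
    · have h3 : 0 < 1 - η := by linarith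
      have h4 : (1 - η) ^ (2 * (r + 1)) ≤ 1 := pow_le_one₀ h3.le (by linarith)
      apply LW_step hC hR n hn θ a η hθ0 (not_le.1 hθ1).le ha hη0 (by linarith)
      · refine h2.trans ?_
        have : 0 ≤ θ * a * η ^ 2 := by positivity
        nlinarith
      · apply ih
        · positivity
        · positivity
        · calc (1 : ℝ) ≤ 2 ^ (r + 1) * (1 - η) ^ (r + 1) * θ := h1
            _ = 2 ^ r * (1 - η) ^ r * (2 * θ * (1 - η)) := by ring
        · calc 256 * C ^ 2 * Real.log n ≤ θ * a * η ^ 2 * (1 - η) ^ (2 * (r + 1)) := h2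
            _ = 2 * θ * (1 - η) * (a * (1 - η) / 2) * η ^ 2 * (1 - η) ^ (2 * r) := by ring

/-- the error term -/
noncomputable def slk (K : ℝ) (n D : ℕ) : ℝ :=
  K * (1 + Real.log D) * Real.sqrt (D * Real.log n)

theorem local_fin : ∃ K : ℝ, 1 ≤ K ∧ ∀ (n : ℕ) (G : SimpleGraph (Fin n)) (D : ℕ)
    (L : Sym2 (Fin n) → Finset ℕ), (∀ v, dg G v ≤ D) →
    (∀ u v, G.Adj u v → (dg G u : ℝ) + slk K n D ≤ (L s(u, v)).card) → ∃ c, Ok G L c := by
  obtain ⟨C, hC, hR⟩ := Pool.Agent.H162R2.AG.R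
  refine ⟨400 * C, by linarith, ?_⟩
  intro n G D L hD hL
  have htriv : (∀ u v, ¬ G.Adj u v) → ∃ c, Ok G L c := fun h =>
    ⟨fun _ => 0, fun u v huv => absurd huv (h u v), fun u v w huv => absurd huv (h u v)⟩
  by_cases hn : 2 ≤ n
  swap
  · apply htriv
    intro u v huv
    apply huv.ne
    apply Fin.ext
    have := u.2
    have := v.2
    omega
  rcases Nat.eq_zero_or_pos D with hD0 | hDpos
  · apply htriv
    intro u v huv
    have h1 := hD u
    have h2 : 0 < dg G u := by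
      rw [dg, Set.ncard_pos (Set.toFinite _)]
      exact ⟨v, huv⟩
    omega
  have hlam : Real.log 2 ≤ Real.log n := Real.log_le_log (by norm_num) (by exact_mod_cast hn)
  have hlam1 : (0.69 : ℝ) ≤ Real.log n := by
    have := Real.log_two_gt_d9
    linarith
  have hD1 : (1 : ℝ) ≤ D := by exact_mod_cast hDpos
  have hlD : 0 ≤ Real.log D := Real.log_natCast_nonneg _
  set r : ℕ := Nat.log 2 D + 1 with hr
  have hr1 : (1 : ℝ) ≤ r := by
    rw [hr]; push_cast
    have : (0 : ℝ) ≤ (Nat.log 2 D : ℝ) := Nat.cast_nonneg _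
    linarith
  have h2r : (D : ℝ) ≤ 2 ^ r := by
    have := (Nat.lt_pow_succ_log_self (b := 2) (by norm_num) D).le
    exact_mod_cast this
  have hr2 : (r : ℝ) ≤ 2 * (1 + Real.log D) := by
    have h1 : (2 : ℝ) ^ (Nat.log 2 D) ≤ D := by
      have := Nat.pow_log_le_self 2 (x := D) (by omega)
      exact_mod_cast this
    have h2 := Real.log_le_log (by positivity) h1
    rw [Real.log_pow] at h2
    have h3 := Real.log_two_gt_d9
    have h4 : (0 : ℝ) ≤ (Nat.log 2 D : ℝ) := Nat.cast_nonneg _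
    rw [hr]; push_cast
    nlinarith
  set s : ℝ := slk (400 * C) n D with hs
  have hsq : s ^ 2 = 160000 * C ^ 2 * (1 + Real.log D) ^ 2 * (D * Real.log n) := by
    rw [hs, slk, mul_pow, mul_pow, mul_pow, Real.sq_sqrt (by positivity)]
    ring
  have hs0 : 0 ≤ s := by
    rw [hs, slk]; positivity
  have hs4 : 4 ≤ s := by
    by_contra hcon
    have h1 : s ^ 2 < 16 := by nlinarith [not_le.1 hcon]
    have h2 : (1 : ℝ) ≤ (1 + Real.log D) ^ 2 := by nlinarith
    have h3 : (0.69 : ℝ) ≤ D * Real.log n := by nlinarith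
    have h4 : (1 : ℝ) ≤ C ^ 2 := by nlinarith
    have h5 : (0.69 : ℝ) ≤ C ^ 2 * (1 + Real.log D) ^ 2 * (D * Real.log n) := by
      have h6 : (1 : ℝ) ≤ C ^ 2 * (1 + Real.log D) ^ 2 := by nlinarith
      nlinarith
    nlinarith
  have hspos : 0 < s := by linarith
  set η : ℝ := 1 / (4 * r) with hη
  have hη0 : 0 < η := by positivity
  have hη1 : η ≤ 1 / 2 := by
    rw [hη, div_le_div_iff₀ (by positivity) (by norm_num)]
    linarith
  have hrη : (r : ℝ) * η = 1 / 4 := by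
    rw [hη]; field_simp
  have hb1 : (1 / 2 : ℝ) ≤ (1 - η) ^ r := by
    have h1 := one_add_mul_le_pow (a := -η) (by linarith) r
    have h2 : 1 + (r : ℝ) * -η = 3 / 4 := by
      rw [mul_neg, hrη]; norm_num
    rw [h2] at h1
    have h3 : (1 + -η) = 1 - η := by ring
    rw [h3] at h1
    linarith
  have hb2 : (1 / 2 : ℝ) ≤ (1 - η) ^ (2 * r) := by
    have h1 := one_add_mul_le_pow (a := -η) (by linarith) (2 * r)
    have h2 : 1 + ((2 * r : ℕ) : ℝ) * -η = 1 / 2 := by
      push_cast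
      rw [mul_neg, mul_assoc, hrη]; norm_num
    rw [h2] at h1
    have h3 : (1 + -η) = 1 - η := by ring
    rw [h3] at h1
    linarith
  refine LW_all hC hR n hn η hη0 hη1 r (s / (2 * D)) (s / 2) (by positivity) (by positivity)
    ?_ ?_ G (fun u => dg G u) L (fun u => le_rfl) ?_
  · have h1 : (D : ℝ) * (1 / 2) ≤ 2 ^ r * (1 - η) ^ r :=
      mul_le_mul h2r hb1 (by norm_num) (by positivity)
    have h2 := mul_le_mul_of_nonneg_right h1 (by positivity : (0 : ℝ) ≤ s / (2 * D))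
    have h3 : (D : ℝ) * (1 / 2) * (s / (2 * D)) = s / 4 := by
      field_simp; ring
    linarith
  · have h1 : s / (2 * D) * (s / 2) * η ^ 2 * (1 / 2) ≤
        s / (2 * D) * (s / 2) * η ^ 2 * (1 - η) ^ (2 * r) :=
      mul_le_mul_of_nonneg_left hb2 (by positivity)
    refine le_trans ?_ h1
    have h2 : s / (2 * D) * (s / 2) * η ^ 2 * (1 / 2) = s ^ 2 / (128 * D * r ^ 2) := by
      rw [hη]; field_simp; ring
    rw [h2, le_div_iff₀ (by positivity), hsq]
    have h3 : (r : ℝ) ^ 2 ≤ 4 * (1 + Real.log D) ^ 2 := by nlinarith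
    have h4 : 0 ≤ C ^ 2 * (D * Real.log n) := by positivity
    have h5 := mul_le_mul_of_nonneg_left h3 h4
    nlinarith [mul_nonneg h4 (sq_nonneg (1 + Real.log (D : ℝ)))]
  · intro u v huv
    refine le_trans ?_ (hL u v huv)
    have h1 : (dg G u : ℝ) ≤ D := by exact_mod_cast hD u
    have h2 : s / (2 * D) * dg G u ≤ s / 2 := by
      calc s / (2 * D) * dg G u ≤ s / (2 * D) * D :=
            mul_le_mul_of_nonneg_left h1 (by positivity)
        _ = s / 2 := by field_simp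
    show (1 + s / (2 * D)) * (dg G u : ℝ) + s / 2 ≤ dg G u + s
    linarith

theorem ok_equiv {V : Type} {n : ℕ} (G : SimpleGraph V) (L : Sym2 V → Finset ℕ) (e : V ≃ Fin n)
    (h : ∃ c, Ok (G.comap e.symm) (fun z => L (z.map e.symm)) c) : ∃ c, Ok G L c := by
  obtain ⟨c, h1, h2⟩ := h
  refine ⟨fun z => c (z.map e), ?_, ?_⟩
  · intro u v huv
    have := h1 (e u) (e v) (by simpa using huv)
    simpa using this
  · intro u v w huv huw hne
    have := h2 (e u) (e v) (e w) (by simpa using huv) (by simpa using huw)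
      (fun h => hne (e.injective h))
    simpa using this

theorem dg_comap {V : Type} {n : ℕ} (G : SimpleGraph V) (e : V ≃ Fin n) (x : Fin n) :
    dg (G.comap e.symm) x = dg G (e.symm x) := by
  unfold dg
  have h1 : G.neighborSet (e.symm x) = e.symm '' ((G.comap e.symm).neighborSet x) := by
    ext y
    simp only [SimpleGraph.mem_neighborSet, Set.mem_image, SimpleGraph.comap_adj]
    constructor
    · intro h
      exact ⟨e y, by simpa using h, by simp⟩
    · rintro ⟨z, hz, rfl⟩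
      exact hz
  rw [h1, Set.ncard_image_of_injective _ e.symm.injective]

/-- **Local list edge colouring.** -/
theorem local_V : ∃ K : ℝ, 1 ≤ K ∧ ∀ (V : Type) [Fintype V] (G : SimpleGraph V) (D : ℕ)
    (L : Sym2 V → Finset ℕ), (∀ v, dg G v ≤ D) →
    (∀ u v, G.Adj u v → (dg G u : ℝ) + slk K (Fintype.card V) D ≤ (L s(u, v)).card) →
    ∃ c, Ok G L c := by
  obtain ⟨K, hK, h⟩ := local_fin
  refine ⟨K, hK, ?_⟩
  intro V _ G D L hD hL
  apply ok_equiv G L (Fintype.equivFin V)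
  apply h _ _ D
  · intro x
    rw [dg_comap]
    exact hD _
  · intro x y hxy
    rw [dg_comap]
    have := hL _ _ hxy
    simpa using this

theorem slk_mono {K : ℝ} (hK : 0 ≤ K) (n : ℕ) {d D : ℕ} (h : d ≤ D) : slk K n d ≤ slk K n D := by
  unfold slk
  rcases Nat.eq_zero_or_pos d with h0 | h0
  · subst h0
    simp only [Nat.cast_zero, zero_mul, Real.sqrt_zero, mul_zero]
    have : 0 ≤ Real.log D := Real.log_natCast_nonneg _
    positivity
  have h1 : (d : ℝ) ≤ D := by exact_mod_cast h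
  have h2 : Real.log d ≤ Real.log D := Real.log_le_log (by exact_mod_cast h0) h1
  have h3 : 0 ≤ Real.log n := Real.log_natCast_nonneg _
  have h4 : Real.sqrt (d * Real.log n) ≤ Real.sqrt (D * Real.log n) :=
    Real.sqrt_le_sqrt (mul_le_mul_of_nonneg_right h1 h3)
  have h5 : 0 ≤ Real.log d := Real.log_natCast_nonneg _
  apply mul_le_mul (mul_le_mul_of_nonneg_left (by linarith) hK) h4 (Real.sqrt_nonneg _)
  have : 0 ≤ 1 + Real.log D := by linarith
  positivity

/-- Colour the edges inside `W`, then the edges leaving `W`, then the edges of `H`, and finally the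
remaining ones. -/
theorem of_parts_local {V : Type} [Fintype V] (G F H : SimpleGraph V) (W : Set V) (D : ℕ)
    (hD : ∀ v, dg G v ≤ D)
    (hF : ∀ u v, F.Adj u v ↔ G.Adj u v ∧ u ∈ W ∧ v ∈ W)
    (hH : ∀ u v, H.Adj u v ↔ G.Adj u v ∧ u ∉ W ∧ v ∉ W ∧ D + 2 ≤ dg G u + dg G v)
    (hcross : ∀ u w, G.Adj u w → u ∉ W → w ∈ W →
      (G.neighborSet u ∩ W).ncard + (G.neighborSet w ∩ W).ncard ≤ D)
    (hcF : Choosable F D)
    (hcH : ∀ L' : Sym2 V → Finset ℕ, (∀ u v, H.Adj u v →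
      D ≤ (L' s(u, v)).card + (G.neighborSet u ∩ W).ncard + (G.neighborSet v ∩ W).ncard) →
      ∃ c, Ok H L' c) : Choosable G D := by
  classical
  rw [choosable_iff] at hcF ⊢
  intro L hL
  obtain ⟨c, hc⟩ := hcF L (fun u v h => hL u v ((hF u v).1 h).1)
  let B : SimpleGraph V :=
    { Adj := fun a b => G.Adj a b ∧ (a ∈ W ∨ b ∈ W)
      symm := ⟨fun a b h => ⟨h.1.symm, h.2.symm⟩⟩
      loopless := ⟨fun a h => G.loopless.irrefl a h.1⟩ }
  have hBG : B ≤ G := fun a b h => h.1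
  have hFB : F ≤ B := fun a b h => ⟨((hF a b).1 h).1, Or.inl ((hF a b).1 h).2.1⟩
  have hdF0 : ∀ v, v ∉ W → dg F v = 0 := by
    intro v hv
    rw [dg, Set.ncard_eq_zero (Set.toFinite _)]
    ext w
    simp only [SimpleGraph.mem_neighborSet, Set.mem_empty_iff_false, iff_false]
    intro h
    exact hv ((hF v w).1 h).2.1
  have hdF1 : ∀ v, v ∈ W → dg F v = (G.neighborSet v ∩ W).ncard := by
    intro v hv
    rw [dg]
    congr 1
    ext w
    simp only [SimpleGraph.mem_neighborSet, Set.mem_inter_iff, hF]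
    tauto
  have hdB : ∀ v, v ∉ W → dg B v = (G.neighborSet v ∩ W).ncard := by
    intro v hv
    rw [dg]
    congr 1
    ext w
    show (G.Adj v w ∧ (v ∈ W ∨ w ∈ W)) ↔ _
    simp only [SimpleGraph.mem_neighborSet, Set.mem_inter_iff]
    tauto
  obtain ⟨c1, hc1⟩ : ∃ c, Ok B L c := by
    refine ext F B hFB (fun v => v ∈ W) ?_ L ?_ c hc
    · intro u v h1 h2
      have h3 : ¬ (u ∈ W ∧ v ∈ W) := fun h => h2 ((hF u v).2 ⟨h1.1, h⟩)
      have h4 := h1.2
      tauto
    · intro u v h1 h2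
      have h3 : ¬ (u ∈ W ∧ v ∈ W) := fun h => h2 ((hF u v).2 ⟨h1.1, h⟩)
      have h4 := h1.2
      have h5 := hL u v h1.1
      by_cases hv : v ∈ W
      · have hu : u ∉ W := fun h => h3 ⟨h, hv⟩
        rw [hdB u hu, hdF1 v hv]
        exact (hcross u v h1.1 hu hv).trans h5
      · rw [hdF0 v hv]
        have h6 := dg_mono hBG u
        have h7 := hD u
        omega
  have hHout : ∀ u v, H.Adj u v → u ∉ W ∧ v ∉ W := fun u v h =>
    ⟨((hH u v).1 h).2.1, ((hH u v).1 h).2.2.1⟩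
  obtain ⟨c2, hc2⟩ := hcH (left B L c1) (by
    intro u v huv
    have h1 := card_left B L c1 u v
    have h2 := hL u v ((hH u v).1 huv).1
    rw [hdB u (hHout u v huv).1, hdB v (hHout u v huv).2] at h1
    omega)
  have hle : (B ⊔ H) \ B ≤ H := by
    intro a b h
    rw [SimpleGraph.sdiff_adj, SimpleGraph.sup_adj] at h
    rcases h.1 with h1 | h1
    · exact absurd h1 h.2
    · exact h1
  obtain ⟨c3, hc3⟩ : ∃ c, Ok (B ⊔ H) L c :=
    ok_glue B (B ⊔ H) L c1 c2 hc1 (ok_mono hle hc2)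
  have hBHG : B ⊔ H ≤ G := sup_le hBG (fun a b h => ((hH a b).1 h).1)
  apply greedy G (B ⊔ H) hBHG L ⟨c3, hc3⟩
  intro u v h1 h2
  have h3 : ¬ B.Adj u v := fun h => h2 (Or.inl h)
  have h4 : ¬ H.Adj u v := fun h => h2 (Or.inr h)
  have h5 := hL u v h1
  have hu : u ∉ W := fun h => h3 ⟨h1, Or.inl h⟩
  have hv : v ∉ W := fun h => h3 ⟨h1, Or.inr h⟩
  have h6 : ¬ (D + 2 ≤ dg G u + dg G v) := fun h => h4 ((hH u v).2 ⟨h1, hu, hv, h⟩)
  omega

end Pool.Agent.N410.LD
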