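import Pool.Agent.N410.LD.LocalT

/-!
# The local theorem for every multiplicative error, and component by component
-/

set_option autoImplicit false

namespace Pool.Agent.N410.LD

open Finset Pool.Agent.TH559.LE

theorem ok_of_comp {V : Type} (A : SimpleGraph V) (L : Sym2 V → Finset ℕ)
    (h' : ∀ v, ∃ c, Ok (comp A v) L c) : ∃ c, Ok A L c := by
  classical
  choose c hc using h'
  let rep : V → V := fun a => Quot.out (A.connectedComponentMk a)
  have hrep1 : ∀ a, A.Reachable (rep a) a := by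
    intro a
    apply SimpleGraph.ConnectedComponent.exact
    exact Quot.out_eq (A.connectedComponentMk a)
  have hrep2 : ∀ a b, A.Reachable a b → rep a = rep b := by
    intro a b hab
    simp only [rep]
    rw [SimpleGraph.ConnectedComponent.sound hab]
  have key : ∀ a b, A.Adj a b →
      (fun z : Sym2 V => c (rep (Quot.out z).1) z) s(a, b) = c (rep a) s(a, b) := by
    intro a b hab
    have h1 : (Quot.out s(a, b)).1 ∈ s(a, b) := Sym2.out_fst_mem _
    have h2 : rep (Quot.out s(a, b)).1 = rep a := by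
      rcases Sym2.mem_iff.1 h1 with h | h
      · rw [h]
      · rw [h]
        exact hrep2 b a hab.symm.reachable
    simp only
    rw [h2]
  refine ⟨fun z : Sym2 V => c (rep (Quot.out z).1) z, ?_, ?_⟩
  · intro a b hab
    rw [key a b hab]
    exact (hc (rep a)).1 a b ⟨hab, hrep1 a⟩
  · intro a b d hab had hne
    rw [key a b hab, key a d had]
    exact (hc (rep a)).2 a b d ⟨hab, hrep1 a⟩ ⟨had, hrep1 a⟩ hne

/-- Graphs with at most `M` non-isolated vertices, with given lists. -/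
theorem to_fin_local {V : Type} [Finite V] (F : SimpleGraph V) (S : Set V) (M : ℕ)
    (hS : S.ncard ≤ M) (hFS : ∀ a b, F.Adj a b → a ∈ S) (L : Sym2 V → Finset ℕ)
    (P : ℕ → ℕ → Prop) (hP : ∀ d d' m, d' ≤ d → P d m → P d' m)
    (hL : ∀ u v, F.Adj u v → P (dg F u) (L s(u, v)).card)
    (h : ∀ (G' : SimpleGraph (Fin M)) (L' : Sym2 (Fin M) → Finset ℕ),
      (∀ a b, G'.Adj a b → P (dg G' a) (L' s(a, b)).card) → ∃ c, Ok G' L' c) :
    ∃ c, Ok F L c := by
  classical
  by_cases hne : ∃ a b, F.Adj a b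
  · obtain ⟨a₀, b₀, hab⟩ := hne
    have hM : 0 < M := by
      refine lt_of_lt_of_le ?_ hS
      rw [Set.ncard_pos (Set.toFinite _)]
      exact ⟨a₀, hFS _ _ hab⟩
    obtain ⟨f, hf⟩ : ∃ f : V → Fin M, Set.InjOn f S := by
      haveI : Nonempty (Fin M) := ⟨⟨0, hM⟩⟩
      obtain ⟨f, -, hf⟩ := (Set.toFinite S).exists_injOn_of_encard_le (t := (Set.univ : Set (Fin M)))
        (by
          rw [Set.encard_univ, ENat.card_eq_coe_fintype_card, Fintype.card_fin,
            ← (Set.toFinite S).cast_ncard_eq]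
          exact_mod_cast hS)
      exact ⟨f, hf⟩
    have inj : ∀ x y x' y', F.Adj x x' → F.Adj y y' → f x = f y → x = y :=
      fun x y x' y' h1 h2 h3 => hf (hFS _ _ h1) (hFS _ _ h2) h3
    let G' : SimpleGraph (Fin M) :=
      { Adj := fun a b => ∃ x y, F.Adj x y ∧ f x = a ∧ f y = b
        symm := ⟨fun a b ⟨x, y, h1, h2, h3⟩ => ⟨y, x, h1.symm, h3, h2⟩⟩
        loopless := ⟨fun a ⟨x, y, h1, h2, h3⟩ =>
          h1.ne (inj x y y x h1 h1.symm (h2.trans h3.symm))⟩ }
    have huniq : ∀ x y a b, F.Adj x y → F.Adj a b → s(f x, f y) = s(f a, f b) →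
        s(x, y) = s(a, b) := by
      intro x y a b hxy hab he
      rw [Sym2.eq_iff] at he ⊢
      rcases he with ⟨h1, h2⟩ | ⟨h1, h2⟩
      · exact Or.inl ⟨inj x a y b hxy hab h1, inj y b x a hxy.symm hab.symm h2⟩
      · exact Or.inr ⟨inj x b y a hxy hab.symm h1, inj y a x b hxy.symm hab h2⟩
    have hex : ∀ z : Sym2 (Fin M), ∃ S : Finset ℕ,
        ∀ x y, F.Adj x y → z = s(f x, f y) → S = L s(x, y) := by
      intro z
      by_cases hz : ∃ x y, F.Adj x y ∧ z = s(f x, f y)
      · obtain ⟨x, y, hxy, hz'⟩ := hz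
        refine ⟨L s(x, y), ?_⟩
        intro a b hab hz''
        rw [huniq x y a b hxy hab (hz'.symm.trans hz'')]
      · exact ⟨∅, fun x y hxy hz' => absurd ⟨x, y, hxy, hz'⟩ hz⟩
    choose L' hL1 using hex
    obtain ⟨c, hc1, hc2⟩ := h G' L' (by
      rintro a b ⟨x, y, hxy, rfl, rfl⟩
      rw [hL1 _ x y hxy rfl]
      refine hP _ _ _ ?_ (hL x y hxy)
      have h1 : G'.neighborSet (f x) ⊆ f '' (F.neighborSet x) := by
        rintro b ⟨x', y', h2, h3, h4⟩
        have h5 := inj x' x y' y h2 hxy h3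
        subst h5
        exact ⟨y', h2, h4⟩
      exact (Set.ncard_le_ncard h1 (Set.toFinite _)).trans (Set.ncard_image_le (Set.toFinite _)))
    refine ⟨fun z => c (z.map f), ?_, ?_⟩
    · intro u v huv
      have h1 := hc1 (f u) (f v) ⟨u, v, huv, rfl, rfl⟩
      rw [hL1 _ u v huv rfl] at h1
      simpa using h1
    · intro u v w huv huw hne
      have h1 := hc2 (f u) (f v) (f w) ⟨u, v, huv, rfl, rfl⟩ ⟨u, w, huw, rfl, rfl⟩
        (fun he => hne (inj v w u u huv.symm huw.symm he))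
      simpa using h1
  · exact ⟨fun _ => 0, fun u v huv => absurd ⟨u, v, huv⟩ hne,
      fun u v w huv => absurd ⟨u, v, huv⟩ hne⟩

/-- The same for graphs all of whose components have at most `M` vertices. -/
theorem to_comp_local {V : Type} [Finite V] (F : SimpleGraph V) (M : ℕ)
    (hM : ∀ v, {w | F.Reachable v w}.ncard ≤ M) (L : Sym2 V → Finset ℕ)
    (P : ℕ → ℕ → Prop) (hP : ∀ d d' m, d' ≤ d → P d m → P d' m)
    (hL : ∀ u v, F.Adj u v → P (dg F u) (L s(u, v)).card)
    (h : ∀ (G' : SimpleGraph (Fin M)) (L' : Sym2 (Fin M) → Finset ℕ),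
      (∀ a b, G'.Adj a b → P (dg G' a) (L' s(a, b)).card) → ∃ c, Ok G' L' c) :
    ∃ c, Ok F L c := by
  haveI := Fintype.ofFinite V
  apply ok_of_comp
  intro v
  apply to_fin_local (comp F v) {w | F.Reachable v w} M (hM v) (fun a b h => h.2) L P hP _ h
  intro a b hab
  exact hP _ _ _ (dg_mono (comp_le F v) a) (hL a b hab.1)

theorem local_theta_fin : ∃ K : ℝ, 1 ≤ K ∧ ∀ (n : ℕ) (θ : ℝ), 0 < θ →
    ∀ (G : SimpleGraph (Fin n)) (L : Sym2 (Fin n) → Finset ℕ),
    (∀ u v, G.Adj u v → (1 + θ) * (dg G u : ℝ) +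
      K * (1 + Real.log (1 / θ)) ^ 2 * Real.log n / θ ≤ (L s(u, v)).card) → ∃ c, Ok G L c := by
  obtain ⟨C, hC, hR⟩ := Pool.Agent.H162R2.AG.R
  refine ⟨73728 * C ^ 2, by nlinarith, ?_⟩
  intro n θ hθ G L hL
  have hlam : 0 ≤ Real.log n := Real.log_natCast_nonneg _
  set T : ℝ := 1 + Real.log (1 / θ) with hT
  set a : ℝ := 73728 * C ^ 2 * T ^ 2 * Real.log n / θ with ha
  have ha0 : 0 ≤ a := by positivity
  by_cases hθ1 : 1 ≤ θ
  · exact LW_base n θ a hθ1 ha0 G (fun u => dg G u) L (fun u => le_rfl) hL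
  have hθ1' : θ ≤ 1 := (not_le.1 hθ1).le
  by_cases hn : 2 ≤ n
  swap
  · have hno : ∀ u v, ¬ G.Adj u v := by
      intro u v huv
      apply huv.ne
      apply Fin.ext
      have := u.2
      have := v.2
      omega
    exact ⟨fun _ => 0, fun u v huv => absurd huv (hno u v), fun u v w huv => absurd huv (hno u v)⟩
  have hlt : 0 ≤ Real.log (1 / θ) := Real.log_nonneg (by rw [le_div_iff₀ hθ]; linarith)
  have hT1 : 1 ≤ T := by linarith
  set r : ℕ := ⌈2 * T⌉₊ with hr
  have hr1 : 2 * T ≤ r := Nat.le_ceil _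
  have hr2 : (r : ℝ) ≤ 3 * T := by
    have := Nat.ceil_lt_add_one (a := 2 * T) (by linarith)
    linarith
  have hr0 : (0 : ℝ) < r := by linarith
  have h2r : 2 / θ ≤ 2 ^ r := by
    have h1 : Real.exp T ≤ 2 ^ r := by
      have h2 : (2 : ℝ) ^ r = Real.exp (r * Real.log 2) := by
        rw [← Real.log_pow, Real.exp_log (by positivity)]
      rw [h2]
      apply Real.exp_le_exp.2
      have h3 := Real.log_two_gt_d9
      nlinarith
    have h4 : Real.exp T = Real.exp 1 / θ := by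
      rw [hT, Real.exp_add, Real.exp_log (by positivity)]
      ring
    have h5 := Real.exp_one_gt_d9
    have h6 : 2 / θ ≤ Real.exp 1 / θ := div_le_div_of_nonneg_right (by linarith) hθ.le
    linarith
  set η : ℝ := 1 / (4 * r) with hη
  have hη0 : 0 < η := by positivity
  have hη1 : η ≤ 1 / 2 := by
    rw [hη, div_le_div_iff₀ (by positivity) (by norm_num)]
    linarith
  have hrη : (r : ℝ) * η = 1 / 4 := by
    rw [hη]; field_simp
  have hb1 : (1 / 2 : ℝ) ≤ (1 - η) ^ r := by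
    have h1 := one_add_mul_le_pow (a := -η) (by linarith) r
    have h2 : 1 + (r : ℝ) * -η = 3 / 4 := by
      rw [mul_neg, hrη]; norm_num
    rw [h2] at h1
    have h3 : (1 + -η) = 1 - η := by ring
    rw [h3] at h1
    linarith
  have hb2 : (1 / 2 : ℝ) ≤ (1 - η) ^ (2 * r) := by
    have h1 := one_add_mul_le_pow (a := -η) (by linarith) (2 * r)
    have h2 : 1 + ((2 * r : ℕ) : ℝ) * -η = 1 / 2 := by
      push_cast
      rw [mul_neg, mul_assoc, hrη]; norm_num
    rw [h2] at h1
    have h3 : (1 + -η) = 1 - η := by ring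
    rw [h3] at h1
    linarith
  refine LW_all hC hR n hn η hη0 hη1 r θ a hθ ha0 ?_ ?_ G (fun u => dg G u) L
    (fun u => le_rfl) hL
  · have h1 : 2 / θ * (1 / 2) ≤ 2 ^ r * (1 - η) ^ r :=
      mul_le_mul h2r hb1 (by norm_num) (by positivity)
    have h2 := mul_le_mul_of_nonneg_right h1 hθ.le
    have h3 : 2 / θ * (1 / 2) * θ = 1 := by
      field_simp
    linarith
  · have h1 : θ * a * η ^ 2 * (1 / 2) ≤ θ * a * η ^ 2 * (1 - η) ^ (2 * r) :=
      mul_le_mul_of_nonneg_left hb2 (by positivity)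
    refine le_trans ?_ h1
    have h2 : θ * a * η ^ 2 * (1 / 2) = 73728 * C ^ 2 * T ^ 2 * Real.log n / (32 * r ^ 2) := by
      rw [hη, ha]; field_simp; ring
    rw [h2, le_div_iff₀ (by positivity)]
    have h3 : (r : ℝ) ^ 2 ≤ 9 * T ^ 2 := by nlinarith
    have h4 : 0 ≤ C ^ 2 * Real.log n := by positivity
    have h5 := mul_le_mul_of_nonneg_left h3 h4
    nlinarith

/-- **Local list edge colouring**, for every multiplicative error and every bound `M` for the
orders of the components. -/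
theorem local_theta : ∃ K : ℝ, 1 ≤ K ∧ ∀ (V : Type) [Finite V] (G : SimpleGraph V) (M : ℕ)
    (θ : ℝ) (L : Sym2 V → Finset ℕ), 0 < θ → (∀ v, {w | G.Reachable v w}.ncard ≤ M) →
    (∀ u v, G.Adj u v → (dg G u : ℝ) + (θ * dg G u +
      K * (1 + Real.log (1 / θ)) ^ 2 * Real.log M / θ) ≤ (L s(u, v)).card) → ∃ c, Ok G L c := by
  obtain ⟨K, hK, h⟩ := local_theta_fin
  refine ⟨K, hK, ?_⟩
  intro V _ G M θ L hθ hM hL
  apply to_comp_local G M hM L
    (fun d m => (1 + θ) * (d : ℝ) + K * (1 + Real.log (1 / θ)) ^ 2 * Real.log M / θ ≤ m)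
  · intro d d' m hd h1
    refine le_trans ?_ h1
    have h2 : (d' : ℝ) ≤ d := by exact_mod_cast hd
    have h3 : (1 + θ) * (d' : ℝ) ≤ (1 + θ) * d := mul_le_mul_of_nonneg_left h2 (by linarith)
    linarith
  · intro u v huv
    have := hL u v huv
    show (1 + θ) * (dg G u : ℝ) + _ ≤ _
    linarith
  · intro G' L' h'
    exact h M θ hθ G' L' h'

/-- The form with the optimal `θ` for the maximum degree. -/
theorem local_sqrt : ∃ K : ℝ, 1 ≤ K ∧ ∀ (V : Type) [Finite V] (G : SimpleGraph V) (M D : ℕ)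
    (L : Sym2 V → Finset ℕ), (∀ v, dg G v ≤ D) → (∀ v, {w | G.Reachable v w}.ncard ≤ M) →
    (∀ u v, G.Adj u v → (dg G u : ℝ) + slk K M D ≤ (L s(u, v)).card) → ∃ c, Ok G L c := by
  obtain ⟨K, hK, h⟩ := local_fin
  refine ⟨K, hK, ?_⟩
  intro V _ G M D L hD hM hL
  apply to_comp_local G M hM L (fun d m => d ≤ D ∧ (d : ℝ) + slk K M D ≤ m)
  · rintro d d' m hd ⟨h1, h2⟩
    refine ⟨hd.trans h1, le_trans ?_ h2⟩
    have h3 : (d' : ℝ) ≤ d := by exact_mod_cast hd
    linarith
  · intro u v huv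
    exact ⟨hD u, hL u v huv⟩
  · intro G' L' h'
    apply h M G' D L'
    · intro v
      by_cases hv : ∃ w, G'.Adj v w
      · obtain ⟨w, hw⟩ := hv
        exact (h' v w hw).1
      · have : G'.neighborSet v = ∅ := by
          ext b
          simp only [SimpleGraph.mem_neighborSet, Set.mem_empty_iff_false, iff_false]
          exact fun h1 => hv ⟨b, h1⟩
        rw [dg, this, Set.ncard_empty]
        exact Nat.zero_le _
    · intro u v huv
      exact (h' u v huv).2

end Pool.Agent.N410.LD
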