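import Pool.Agent.TH559.LE.Edges
import Pool.Agent.TH559.LE.Ext2

/-!
# Extending list edge colourings from an induced subgraph
-/

set_option autoImplicit false

namespace Pool.Agent.N410.LD

open Finset Pool.Agent.TH559.LE

variable {V : Type}

theorem ok_mono {A B : SimpleGraph V} (h : A ≤ B) {L : Sym2 V → Finset ℕ} {c : Sym2 V → ℕ}
    (hc : Ok B L c) : Ok A L c :=
  ⟨fun u v huv => hc.1 u v (h huv), fun u v w h1 h2 hne => hc.2 u v w (h h1) (h h2) hne⟩

/-- Colour the edges inside `W`, then the edges leaving `W`, then the edges of `H`, and finally the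
remaining ones. -/
theorem of_parts [Fintype V] (G F H : SimpleGraph V) (W : Set V) (D l : ℕ)
    (hD : ∀ v, dg G v ≤ D)
    (hF : ∀ u v, F.Adj u v ↔ G.Adj u v ∧ u ∈ W ∧ v ∈ W)
    (hH : ∀ u v, H.Adj u v ↔ G.Adj u v ∧ u ∉ W ∧ v ∉ W ∧ D + 2 ≤ dg G u + dg G v)
    (hcross : ∀ u w, G.Adj u w → u ∉ W → w ∈ W →
      (G.neighborSet u ∩ W).ncard + (G.neighborSet w ∩ W).ncard ≤ D)
    (hl : ∀ u v, H.Adj u v →
      (G.neighborSet u ∩ W).ncard + (G.neighborSet v ∩ W).ncard + l ≤ D)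
    (hcF : Choosable F D) (hcH : Choosable H l) : Choosable G D := by
  classical
  rw [choosable_iff] at hcF hcH ⊢
  intro L hL
  obtain ⟨c, hc⟩ := hcF L (fun u v h => hL u v ((hF u v).1 h).1)
  let B : SimpleGraph V :=
    { Adj := fun a b => G.Adj a b ∧ (a ∈ W ∨ b ∈ W)
      symm := ⟨fun a b h => ⟨h.1.symm, h.2.symm⟩⟩
      loopless := ⟨fun a h => G.loopless.irrefl a h.1⟩ }
  have hBG : B ≤ G := fun a b h => h.1
  have hFB : F ≤ B := fun a b h => ⟨((hF a b).1 h).1, Or.inl ((hF a b).1 h).2.1⟩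
  have hdF0 : ∀ v, v ∉ W → dg F v = 0 := by
    intro v hv
    rw [dg, Set.ncard_eq_zero (Set.toFinite _)]
    ext w
    simp only [SimpleGraph.mem_neighborSet, Set.mem_empty_iff_false, iff_false]
    intro h
    exact hv ((hF v w).1 h).2.1
  have hdF1 : ∀ v, v ∈ W → dg F v = (G.neighborSet v ∩ W).ncard := by
    intro v hv
    rw [dg]
    congr 1
    ext w
    simp only [SimpleGraph.mem_neighborSet, Set.mem_inter_iff, hF]
    tauto
  have hdB : ∀ v, v ∉ W → dg B v = (G.neighborSet v ∩ W).ncard := by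
    intro v hv
    rw [dg]
    congr 1
    ext w
    show (G.Adj v w ∧ (v ∈ W ∨ w ∈ W)) ↔ _
    simp only [SimpleGraph.mem_neighborSet, Set.mem_inter_iff]
    tauto
  obtain ⟨c1, hc1⟩ : ∃ c, Ok B L c := by
    refine ext F B hFB (fun v => v ∈ W) ?_ L ?_ c hc
    · intro u v h1 h2
      have h3 : ¬ (u ∈ W ∧ v ∈ W) := fun h => h2 ((hF u v).2 ⟨h1.1, h⟩)
      have h4 := h1.2
      tauto
    · intro u v h1 h2
      have h3 : ¬ (u ∈ W ∧ v ∈ W) := fun h => h2 ((hF u v).2 ⟨h1.1, h⟩)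
      have h4 := h1.2
      have h5 := hL u v h1.1
      by_cases hv : v ∈ W
      · have hu : u ∉ W := fun h => h3 ⟨h, hv⟩
        rw [hdB u hu, hdF1 v hv]
        exact (hcross u v h1.1 hu hv).trans h5
      · rw [hdF0 v hv]
        have h6 := dg_mono hBG u
        have h7 := hD u
        omega
  have hHout : ∀ u v, H.Adj u v → u ∉ W ∧ v ∉ W := fun u v h =>
    ⟨((hH u v).1 h).2.1, ((hH u v).1 h).2.2.1⟩
  obtain ⟨c2, hc2⟩ := hcH (left B L c1) (by
    intro u v huv
    have h1 := card_left B L c1 u v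
    have h2 := hL u v ((hH u v).1 huv).1
    have h3 := hl u v huv
    rw [hdB u (hHout u v huv).1, hdB v (hHout u v huv).2] at h1
    omega)
  have hle : (B ⊔ H) \ B ≤ H := by
    intro a b h
    rw [SimpleGraph.sdiff_adj, SimpleGraph.sup_adj] at h
    rcases h.1 with h1 | h1
    · exact absurd h1 h.2
    · exact h1
  obtain ⟨c3, hc3⟩ : ∃ c, Ok (B ⊔ H) L c :=
    ok_glue B (B ⊔ H) L c1 c2 hc1 (ok_mono hle hc2)
  have hBHG : B ⊔ H ≤ G := sup_le hBG (fun a b h => ((hH a b).1 h).1)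
  apply greedy G (B ⊔ H) hBHG L ⟨c3, hc3⟩
  intro u v h1 h2
  have h3 : ¬ B.Adj u v := fun h => h2 (Or.inl h)
  have h4 : ¬ H.Adj u v := fun h => h2 (Or.inr h)
  have h5 := hL u v h1
  have hu : u ∉ W := fun h => h3 ⟨h1, Or.inl h⟩
  have hv : v ∉ W := fun h => h3 ⟨h1, Or.inr h⟩
  have h6 : ¬ (D + 2 ≤ dg G u + dg G v) := fun h => h4 ((hH u v).2 ⟨h1, hu, hv, h⟩)
  omega

/-- Choosability and homomorphisms which are injective on the non-isolated vertices. -/
theorem choosable_of_map {U : Type} (F : SimpleGraph V) (G' : SimpleGraph U) (f : V → U) (l : ℕ)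
    (hom : ∀ x y, F.Adj x y → G'.Adj (f x) (f y))
    (inj : ∀ x y x' y', F.Adj x x' → F.Adj y y' → f x = f y → x = y)
    (h : Choosable G' l) : Choosable F l := by
  classical
  rw [choosable_iff] at h ⊢
  intro L hL
  have huniq : ∀ x y a b, F.Adj x y → F.Adj a b → s(f x, f y) = s(f a, f b) → s(x, y) = s(a, b) := by
    intro x y a b hxy hab he
    rw [Sym2.eq_iff] at he ⊢
    rcases he with ⟨h1, h2⟩ | ⟨h1, h2⟩
    · exact Or.inl ⟨inj x a y b hxy hab h1, inj y b x a hxy.symm hab.symm h2⟩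
    · exact Or.inr ⟨inj x b y a hxy hab.symm h1, inj y a x b hxy.symm hab h2⟩
  have hex : ∀ z : Sym2 U, ∃ S : Finset ℕ, (∀ x y, F.Adj x y → z = s(f x, f y) → S = L s(x, y)) ∧
      ((¬ ∃ x y, F.Adj x y ∧ z = s(f x, f y)) → S = range l) := by
    intro z
    by_cases hz : ∃ x y, F.Adj x y ∧ z = s(f x, f y)
    · obtain ⟨x, y, hxy, hz'⟩ := hz
      refine ⟨L s(x, y), ?_, fun hn => absurd ⟨x, y, hxy, hz'⟩ hn⟩
      intro a b hab hz''
      rw [huniq x y a b hxy hab (hz'.symm.trans hz'')]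
    · refine ⟨range l, ?_, fun _ => rfl⟩
      intro x y hxy hz'
      exact absurd ⟨x, y, hxy, hz'⟩ hz
  choose L' hL1 hL2 using hex
  obtain ⟨c, hc1, hc2⟩ := h L' (by
    intro a b _
    by_cases hz : ∃ x y, F.Adj x y ∧ s(a, b) = s(f x, f y)
    · obtain ⟨x, y, hxy, hz'⟩ := hz
      rw [hL1 _ x y hxy hz']
      exact hL x y hxy
    · rw [hL2 _ hz, card_range])
  refine ⟨fun z => c (z.map f), ?_, ?_⟩
  · intro u v huv
    have h1 := hc1 (f u) (f v) (hom u v huv)
    rw [hL1 _ u v huv rfl] at h1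
    simpa using h1
  · intro u v w huv huw hne
    have h1 := hc2 (f u) (f v) (f w) (hom u v huv) (hom u w huw)
      (fun he => hne (inj v w u u huv.symm huw.symm he))
    simpa using h1

/-- Graphs with at most `M` non-isolated vertices. -/
theorem to_fin [Finite V] (F : SimpleGraph V) (S : Set V) (M d l : ℕ) (hS : S.ncard ≤ M)
    (hFS : ∀ a b, F.Adj a b → a ∈ S) (hd : ∀ v, dg F v ≤ d)
    (h : ∀ G' : SimpleGraph (Fin M), (∀ x, dg G' x ≤ d) → Choosable G' l) : Choosable F l := by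
  classical
  by_cases hne : ∃ a b, F.Adj a b
  · obtain ⟨a₀, b₀, hab⟩ := hne
    have hM : 0 < M := by
      refine lt_of_lt_of_le ?_ hS
      rw [Set.ncard_pos (Set.toFinite _)]
      exact ⟨a₀, hFS _ _ hab⟩
    obtain ⟨f, hf⟩ : ∃ f : V → Fin M, Set.InjOn f S := by
      have h1 : (S.toFinite.toFinset).card ≤ (univ : Finset (Fin M)).card := by
        rw [card_univ, Fintype.card_fin, ← Set.ncard_eq_toFinset_card S]
        exact hS
      haveI : Nonempty (Fin M) := ⟨⟨0, hM⟩⟩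
      obtain ⟨f, -, hf⟩ := (Set.toFinite S).exists_injOn_of_encard_le (t := (Set.univ : Set (Fin M)))
        (by
          rw [Set.encard_univ, ENat.card_eq_coe_fintype_card, Fintype.card_fin,
            ← (Set.toFinite S).cast_ncard_eq]
          exact_mod_cast hS)
      exact ⟨f, hf⟩
    have inj : ∀ x y x' y', F.Adj x x' → F.Adj y y' → f x = f y → x = y :=
      fun x y x' y' h1 h2 h3 => hf (hFS _ _ h1) (hFS _ _ h2) h3
    let G' : SimpleGraph (Fin M) :=
      { Adj := fun a b => ∃ x y, F.Adj x y ∧ f x = a ∧ f y = b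
        symm := ⟨fun a b ⟨x, y, h1, h2, h3⟩ => ⟨y, x, h1.symm, h3, h2⟩⟩
        loopless := ⟨fun a ⟨x, y, h1, h2, h3⟩ =>
          h1.ne (inj x y y x h1 h1.symm (h2.trans h3.symm))⟩ }
    refine choosable_of_map F G' f l (fun x y hxy => ⟨x, y, hxy, rfl, rfl⟩) inj (h G' ?_)
    intro a
    by_cases ha : ∃ x y, F.Adj x y ∧ f x = a
    · obtain ⟨x, y, hxy, rfl⟩ := ha
      refine le_trans ?_ (hd x)
      have h1 : G'.neighborSet (f x) ⊆ f '' (F.neighborSet x) := by
        rintro b ⟨x', y', h2, h3, h4⟩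
        have h5 := inj x' x y' y h2 hxy h3
        subst h5
        exact ⟨y', h2, h4⟩
      exact (Set.ncard_le_ncard h1 (Set.toFinite _)).trans (Set.ncard_image_le (Set.toFinite _))
    · have : G'.neighborSet a = ∅ := by
        ext b
        simp only [SimpleGraph.mem_neighborSet, Set.mem_empty_iff_false, iff_false]
        rintro ⟨x, y, h1, h2, -⟩
        exact ha ⟨x, y, h1, h2⟩
      rw [dg, this, Set.ncard_empty]
      exact Nat.zero_le _
  · rw [choosable_iff]
    intro L _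
    exact ⟨fun _ => 0, fun u v huv => absurd ⟨u, v, huv⟩ hne, fun u v w huv => absurd ⟨u, v, huv⟩ hne⟩

end Pool.Agent.N410.LD
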