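import Pool.Agent.N410.LD.LocalU

/-!
# Colouring in parts, with lists of different sizes
-/

set_option autoImplicit false

namespace Pool.Agent.N410.LD

open Finset Pool.Agent.TH559.LE

/-- Colour the edges inside `W`, then the edges leaving `W`, then the edges of `H`, and finally the
remaining ones. -/
theorem of_parts_sizes {V : Type} [Fintype V] (G F H : SimpleGraph V) (W : Set V)
    (L : Sym2 V → Finset ℕ)
    (hdL : ∀ u v, G.Adj u v → dg G u ≤ (L s(u, v)).card)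
    (hF : ∀ u v, F.Adj u v ↔ G.Adj u v ∧ u ∈ W ∧ v ∈ W)
    (hHG : ∀ u v, H.Adj u v → G.Adj u v ∧ u ∉ W ∧ v ∉ W)
    (hrest : ∀ u v, G.Adj u v → u ∉ W → v ∉ W → ¬ H.Adj u v →
      dg G u + dg G v ≤ (L s(u, v)).card + 1)
    (hcross : ∀ u w, G.Adj u w → u ∉ W → w ∈ W →
      (G.neighborSet u ∩ W).ncard + (G.neighborSet w ∩ W).ncard ≤ (L s(u, w)).card)
    (hcF : ∃ c, Ok F L c)
    (hcH : ∀ L' : Sym2 V → Finset ℕ, (∀ u v, H.Adj u v →
      (L s(u, v)).card ≤
        (L' s(u, v)).card + (G.neighborSet u ∩ W).ncard + (G.neighborSet v ∩ W).ncard) →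
      ∃ c, Ok H L' c) : ∃ c, Ok G L c := by
  classical
  obtain ⟨c, hc⟩ := hcF
  let B : SimpleGraph V :=
    { Adj := fun a b => G.Adj a b ∧ (a ∈ W ∨ b ∈ W)
      symm := ⟨fun a b h => ⟨h.1.symm, h.2.symm⟩⟩
      loopless := ⟨fun a h => G.loopless.irrefl a h.1⟩ }
  have hBG : B ≤ G := fun a b h => h.1
  have hFB : F ≤ B := fun a b h => ⟨((hF a b).1 h).1, Or.inl ((hF a b).1 h).2.1⟩
  have hdF0 : ∀ v, v ∉ W → dg F v = 0 := by
    intro v hv
    rw [dg, Set.ncard_eq_zero (Set.toFinite _)]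
    ext w
    simp only [SimpleGraph.mem_neighborSet, Set.mem_empty_iff_false, iff_false]
    intro h
    exact hv ((hF v w).1 h).2.1
  have hdF1 : ∀ v, v ∈ W → dg F v = (G.neighborSet v ∩ W).ncard := by
    intro v hv
    rw [dg]
    congr 1
    ext w
    simp only [SimpleGraph.mem_neighborSet, Set.mem_inter_iff, hF]
    tauto
  have hdB : ∀ v, v ∉ W → dg B v = (G.neighborSet v ∩ W).ncard := by
    intro v hv
    rw [dg]
    congr 1
    ext w
    show (G.Adj v w ∧ (v ∈ W ∨ w ∈ W)) ↔ _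
    simp only [SimpleGraph.mem_neighborSet, Set.mem_inter_iff]
    tauto
  obtain ⟨c1, hc1⟩ : ∃ c, Ok B L c := by
    refine ext F B hFB (fun v => v ∈ W) ?_ L ?_ c hc
    · intro u v h1 h2
      have h3 : ¬ (u ∈ W ∧ v ∈ W) := fun h => h2 ((hF u v).2 ⟨h1.1, h⟩)
      have h4 := h1.2
      tauto
    · intro u v h1 h2
      have h3 : ¬ (u ∈ W ∧ v ∈ W) := fun h => h2 ((hF u v).2 ⟨h1.1, h⟩)
      have h4 := h1.2
      by_cases hv : v ∈ W
      · have hu : u ∉ W := fun h => h3 ⟨h, hv⟩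
        rw [hdB u hu, hdF1 v hv]
        exact hcross u v h1.1 hu hv
      · rw [hdF0 v hv]
        have h6 := dg_mono hBG u
        have h7 := hdL u v h1.1
        omega
  obtain ⟨c2, hc2⟩ := hcH (left B L c1) (by
    intro u v huv
    have h1 := card_left B L c1 u v
    rw [hdB u (hHG u v huv).2.1, hdB v (hHG u v huv).2.2] at h1
    exact h1)
  have hle : (B ⊔ H) \ B ≤ H := by
    intro a b h
    rw [SimpleGraph.sdiff_adj, SimpleGraph.sup_adj] at h
    rcases h.1 with h1 | h1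
    · exact absurd h1 h.2
    · exact h1
  obtain ⟨c3, hc3⟩ : ∃ c, Ok (B ⊔ H) L c :=
    ok_glue B (B ⊔ H) L c1 c2 hc1 (ok_mono hle hc2)
  have hBHG : B ⊔ H ≤ G := sup_le hBG (fun a b h => (hHG a b h).1)
  apply greedy G (B ⊔ H) hBHG L ⟨c3, hc3⟩
  intro u v h1 h2
  have h3 : ¬ B.Adj u v := fun h => h2 (Or.inl h)
  have h4 : ¬ H.Adj u v := fun h => h2 (Or.inr h)
  exact hrest u v h1 (fun h => h3 ⟨h1, Or.inl h⟩) (fun h => h3 ⟨h1, Or.inr h⟩) h4

end Pool.Agent.N410.LD
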