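import Pool.Agent.N410.LD.Parts
import Pool.Agent.H892.LEC.Few

/-!
# Graphs which are edge-choosable because all components are tame
-/

set_option autoImplicit false

namespace Pool.Agent.N410.LD

open Finset Pool.Agent.TH559.LE

/-- The average degree of every subgraph of `H` is at most `a`: every set `X` of vertices spans at
most `a * |X|` ordered pairs of adjacent vertices. -/
def MadLe {V : Type} (H : SimpleGraph V) (a : ℝ) : Prop :=
  ∀ X : Finset V, ({e : V × V | e.1 ∈ X ∧ e.2 ∈ X ∧ H.Adj e.1 e.2}.ncard : ℝ) ≤ a * X.card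

/-- For every component `C` of `F`, with maximum degree at most `d` and at most `M` vertices,
`3 d ≤ 2 l + 1`, or `d + K (√(d log M) + log M) ≤ l`, or `M ≥ n₀` and `d + ε √(M log M) ≤ l`, or
`d ≤ l` and `C` is bipartite or has maximum average degree `a` with `34 a (1 + log l) ≤ l`. -/
def Tame (K ε : ℝ) (n₀ : ℕ) {V : Type} (F : SimpleGraph V) (l : ℕ) : Prop :=
  ∀ v, ∃ d M : ℕ, (∀ w, dg (comp F v) w ≤ d) ∧ {w | F.Reachable v w}.ncard ≤ M ∧
    (3 * d ≤ 2 * l + 1 ∨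
      (d : ℝ) + K * (Real.sqrt (d * Real.log M) + Real.log M) ≤ l ∨
      (n₀ ≤ M ∧ (d : ℝ) + ε * Real.sqrt (M * Real.log M) ≤ l) ∨
      (d ≤ l ∧ ((comp F v).Colorable 2 ∨
        ∃ a : ℝ, MadLe (comp F v) a ∧ 34 * a * (1 + Real.log l) ≤ l)))

/-- (a) three halves -/
theorem ch_three {V : Type} [Fintype V] (F : SimpleGraph V) (d l : ℕ) (hd : ∀ v, dg F v ≤ d)
    (h : 3 * d ≤ 2 * l + 1) : Choosable F l := by
  apply of_not_irr
  intro H hH hne hI
  obtain ⟨x, hx⟩ := irr_max hI hne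
  have h1 := (dg_mono hH x).trans (hd x)
  omega

/-- (b) bipartite graphs -/
theorem ch_bip {V : Type} [Fintype V] (F : SimpleGraph V) (l : ℕ) (hd : ∀ v, dg F v ≤ l)
    (h : F.Colorable 2) : Choosable F l := by
  obtain ⟨C⟩ := h
  rw [choosable_iff]
  intro L hL
  obtain ⟨c, hc⟩ := ok_bot (V := V) L
  refine ext ⊥ F bot_le (fun v => C v = 0) ?_ L ?_ c hc
  · intro u v huv _
    have h1 := C.valid huv
    constructor
    · intro h2 h3
      exact h1 (h2.trans h3.symm)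
    · intro h2
      show C u = 0
      have h3 : ∀ x y : Fin 2, x ≠ y → y ≠ 0 → x = 0 := by decide
      exact h3 _ _ h1 h2
  · intro u v huv _
    rw [dg_bot]
    have h1 := hd u
    have h2 := hL u v huv
    omega

/-- (c) sparse graphs -/
theorem ch_sparse {V : Type} [Fintype V] (F : SimpleGraph V) (l : ℕ) (hd : ∀ v, dg F v ≤ l)
    (a : ℝ) (hm : MadLe F a) (ha : 34 * a * (1 + Real.log l) ≤ l) : Choosable F l := by
  classical
  exact Pool.Agent.H162R2.Sparse.choosable_sparse F l hd a hm ha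

/-- (d) graphs with few vertices -/
theorem ch_few : ∃ K : ℝ, 1 ≤ K ∧ ∀ ε : ℝ, 0 < ε → ∃ n₀ : ℕ, ∀ (V : Type) [Fintype V]
    (F : SimpleGraph V) (S : Set V) (M d l : ℕ), S.ncard ≤ M → (∀ a b, F.Adj a b → a ∈ S) →
    (∀ v, dg F v ≤ d) →
    ((d : ℝ) + K * (Real.sqrt (d * Real.log M) + Real.log M) ≤ l ∨
      (n₀ ≤ M ∧ (d : ℝ) + ε * Real.sqrt (M * Real.log M) ≤ l)) → Choosable F l := by
  classical
  obtain ⟨K, hK, hS⟩ := Pool.Agent.H892.LEC.col_S
  refine ⟨K, hK, fun ε hε => ?_⟩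
  obtain ⟨n₀, hD⟩ := Pool.Agent.H892.LEC.col_D ε hε
  refine ⟨n₀, ?_⟩
  intro V _ F S M d l hSM hFS hd h
  apply to_fin F S M d l hSM hFS hd
  intro G' hG'
  have hG'' : ∀ x, Pool.Agent.H162R2.Sparse.dg G' x ≤ d := by
    intro x
    rw [Pool.Agent.H162R2.Sparse.dg_eq_ncard]
    exact hG' x
  have key : Pool.Agent.H921R2.LEC.Choosable G' l := by
    apply Pool.Agent.H162R2.Sparse.choosable_of_LC G' l
    intro L hsym hL
    rcases h with h | ⟨hn, h⟩
    · refine hS (Fin M) G' d hG'' L hsym (fun x y hxy => le_trans ?_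
        (Nat.cast_le.2 (hL x y hxy)))
      rw [Fintype.card_fin]
      linarith
    · refine hD (Fin M) G' d (by rw [Fintype.card_fin]; exact hn) hG'' L hsym
        (fun x y hxy => le_trans ?_ (Nat.cast_le.2 (hL x y hxy)))
      rw [Fintype.card_fin]
      exact h
  exact key

/-- Tame graphs are edge-choosable. -/
theorem ch_tame : ∃ K : ℝ, 1 ≤ K ∧ ∀ ε : ℝ, 0 < ε → ∃ n₀ : ℕ, ∀ (V : Type) [Fintype V]
    (F : SimpleGraph V) (l : ℕ), Tame K ε n₀ F l → Choosable F l := by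
  obtain ⟨K, hK, h⟩ := ch_few
  refine ⟨K, hK, fun ε hε => ?_⟩
  obtain ⟨n₀, hn⟩ := h ε hε
  refine ⟨n₀, ?_⟩
  intro V _ F l hF
  apply choosable_of_comp
  intro v
  obtain ⟨d, M, hd, hM, h1 | h1 | h1 | ⟨hdl, h1 | ⟨a, h1, h2⟩⟩⟩ := hF v
  · exact ch_three _ d l hd h1
  · exact hn V (comp F v) {w | F.Reachable v w} M d l hM (fun a b h => h.2) hd (Or.inl h1)
  · exact hn V (comp F v) {w | F.Reachable v w} M d l hM (fun a b h => h.2) hd (Or.inr h1)
  · exact ch_bip _ l (fun w => (hd w).trans hdl) h1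
  · exact ch_sparse _ l (fun w => (hd w).trans hdl) a h1 h2

end Pool.Agent.N410.LD
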