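import Pool.Agent.N410.LD.LocalU
import Pool.Agent.H162R2.Sparse.Total

/-!
# Total colourings from lists: colouring in parts
-/

set_option autoImplicit false

namespace Pool.Agent.N410.LD

open Finset Pool.Agent.TH559.LE

/-- a total colouring from the lists `Lv`, `Le` -/
def TOk {V : Type} (G : SimpleGraph V) (Lv : V → Finset ℕ) (Le : Sym2 V → Finset ℕ) (cv : V → ℕ)
    (ce : Sym2 V → ℕ) : Prop :=
  (∀ v, cv v ∈ Lv v) ∧ (∀ u v, G.Adj u v → cv u ≠ cv v) ∧ Ok G Le ce ∧
    ∀ u v, G.Adj u v → cv u ≠ ce s(u, v)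

/-- total colourings from all lists of `k` colours -/
def TC {V : Type} (G : SimpleGraph V) (k : ℕ) : Prop :=
  ∀ (Lv : V → Finset ℕ) (Le : Sym2 V → Finset ℕ), (∀ v, k ≤ (Lv v).card) →
    (∀ u v, G.Adj u v → k ≤ (Le s(u, v)).card) → ∃ cv ce, TOk G Lv Le cv ce

/-- the form of the problem -/
def TChoosable {V : Type} (G : SimpleGraph V) (k : ℕ) : Prop :=
  ∀ L : V ⊕ G.edgeSet → Finset ℕ, (∀ x, k ≤ (L x).card) →
    ∃ c : V ⊕ G.edgeSet → ℕ, (∀ x, c x ∈ L x) ∧
      (∀ u v : V, G.Adj u v → c (Sum.inl u) ≠ c (Sum.inl v)) ∧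
      (∀ e f : G.edgeSet, e ≠ f → (∃ v : V, v ∈ (e : Sym2 V) ∧ v ∈ (f : Sym2 V)) →
          c (Sum.inr e) ≠ c (Sum.inr f)) ∧
      (∀ (v : V) (e : G.edgeSet), v ∈ (e : Sym2 V) → c (Sum.inl v) ≠ c (Sum.inr e))

theorem tc_iff {V : Type} (G : SimpleGraph V) (k : ℕ) : TChoosable G k ↔ TC G k := by
  classical
  constructor
  · intro h Lv Le hv he
    obtain ⟨c, hc1, hc2, hc3, hc4⟩ := h
      (fun x => match x with
        | Sum.inl v => Lv v
        | Sum.inr e => Le e.1) (by
        intro x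
        rcases x with v | ⟨e, hee⟩
        · exact hv v
        · induction e using Sym2.ind with
          | _ u v => exact he u v ((SimpleGraph.mem_edgeSet G).1 hee))
    refine ⟨fun v => c (Sum.inl v), fun z => if h : z ∈ G.edgeSet then c (Sum.inr ⟨z, h⟩) else 0,
      fun v => hc1 (Sum.inl v), hc2, ⟨?_, ?_⟩, ?_⟩
    · intro u v huv
      have huv' := (SimpleGraph.mem_edgeSet G).2 huv
      simp only
      rw [dif_pos huv']
      exact hc1 (Sum.inr ⟨s(u, v), huv'⟩)
    · intro u v w h1 h2 hne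
      have h1' := (SimpleGraph.mem_edgeSet G).2 h1
      have h2' := (SimpleGraph.mem_edgeSet G).2 h2
      simp only
      rw [dif_pos h1', dif_pos h2']
      apply hc3
      · intro heq
        have h3 := congrArg Subtype.val heq
        simp only at h3
        rw [Sym2.eq_iff] at h3
        rcases h3 with ⟨_, h4⟩ | ⟨h4, h5⟩
        · exact hne h4
        · exact hne (h5.trans h4)
      · exact ⟨u, Sym2.mem_mk_left _ _, Sym2.mem_mk_left _ _⟩
    · intro u v huv
      have huv' := (SimpleGraph.mem_edgeSet G).2 huv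
      simp only
      rw [dif_pos huv']
      exact hc4 u ⟨s(u, v), huv'⟩ (Sym2.mem_mk_left _ _)
  · intro h L hL
    obtain ⟨cv, ce, h1, h2, ⟨h3, h4⟩, h5⟩ := h (fun v => L (Sum.inl v))
      (fun z => if h : z ∈ G.edgeSet then L (Sum.inr ⟨z, h⟩) else ∅) (fun v => hL _) (by
        intro u v huv
        have huv' := (SimpleGraph.mem_edgeSet G).2 huv
        rw [dif_pos huv']
        exact hL _)
    refine ⟨fun x => match x with
        | Sum.inl v => cv v
        | Sum.inr e => ce e.1, ?_, h2, ?_, ?_⟩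
    · intro x
      rcases x with v | ⟨e, hee⟩
      · exact h1 v
      · induction e using Sym2.ind with
        | _ u v =>
          have := h3 u v ((SimpleGraph.mem_edgeSet G).1 hee)
          simp only at this
          rw [dif_pos hee] at this
          exact this
    · rintro ⟨e, he⟩ ⟨f, hf⟩ hef ⟨x, hx, hx'⟩
      simp only at hx hx'
      show ce e ≠ ce f
      obtain ⟨y, rfl⟩ := hx
      obtain ⟨z, rfl⟩ := hx'
      apply h4 x y z ((SimpleGraph.mem_edgeSet G).1 he) ((SimpleGraph.mem_edgeSet G).1 hf)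
      rintro rfl
      exact hef rfl
    · rintro x ⟨e, he⟩ hx
      simp only at hx
      show cv x ≠ ce e
      obtain ⟨y, rfl⟩ := hx
      exact h5 x y ((SimpleGraph.mem_edgeSet G).1 he)

open Classical in
/-- the lists without the colours of the ends in `Z` -/
noncomputable def res {V : Type} (Z : Set V) (cv : V → ℕ) (Le : Sym2 V → Finset ℕ)
    (z : Sym2 V) : Finset ℕ :=
  (Le z).filter (fun a => ∀ v ∈ z, v ∈ Z → cv v ≠ a)

theorem mem_res {V : Type} (Z : Set V) (cv : V → ℕ) (Le : Sym2 V → Finset ℕ) (z : Sym2 V)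
    (a : ℕ) : a ∈ res Z cv Le z ↔ a ∈ Le z ∧ ∀ v ∈ z, v ∈ Z → cv v ≠ a := by
  classical
  exact Finset.mem_filter

theorem card_res_two {V : Type} (Z : Set V) (cv : V → ℕ) (Le : Sym2 V → Finset ℕ) (u v : V) :
    (Le s(u, v)).card ≤ (res Z cv Le s(u, v)).card + 2 := by
  classical
  have h1 : Le s(u, v) ⊆ insert (cv u) (insert (cv v) (res Z cv Le s(u, v))) := by
    intro a ha
    rw [mem_insert, mem_insert, mem_res]
    by_contra hcon
    push Not at hcon
    obtain ⟨h2, h3, h4⟩ := hcon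
    obtain ⟨x, hx, _, hxa⟩ := h4 ha
    rcases Sym2.mem_iff.1 hx with rfl | rfl
    · exact h2 hxa.symm
    · exact h3 hxa.symm
  refine (card_le_card h1).trans ?_
  refine (card_insert_le _ _).trans ?_
  have := card_insert_le (cv v) (res Z cv Le s(u, v))
  omega

theorem card_res_one {V : Type} (Z : Set V) (cv : V → ℕ) (Le : Sym2 V → Finset ℕ) (u v : V)
    (hu : u ∉ Z) : (Le s(u, v)).card ≤ (res Z cv Le s(u, v)).card + 1 := by
  classical
  have h1 : Le s(u, v) ⊆ insert (cv v) (res Z cv Le s(u, v)) := by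
    intro a ha
    rw [mem_insert, mem_res]
    by_contra hcon
    push Not at hcon
    obtain ⟨h3, h4⟩ := hcon
    obtain ⟨x, hx, hxZ, hxa⟩ := h4 ha
    rcases Sym2.mem_iff.1 hx with rfl | rfl
    · exact hu hxZ
    · exact h3 hxa.symm
  exact (card_le_card h1).trans (card_insert_le _ _)

/-- Colour the remaining vertices greedily. -/
theorem add_vertices {V : Type} [Fintype V] (G B : SimpleGraph V) (Lv : V → Finset ℕ)
    (ce : Sym2 V → ℕ) (Z : Set V) (cv : V → ℕ) (hcv : ∀ v ∈ Z, cv v ∈ Lv v)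
    (hadj : ∀ u ∈ Z, ∀ v ∈ Z, G.Adj u v → cv u ≠ cv v)
    (hinc : ∀ u ∈ Z, ∀ v, B.Adj u v → cv u ≠ ce s(u, v))
    (hnew : ∀ v, v ∉ Z → dg G v + dg B v < (Lv v).card) :
    ∃ cv' : V → ℕ, (∀ v, cv' v ∈ Lv v) ∧ (∀ u v, G.Adj u v → cv' u ≠ cv' v) ∧
      ∀ u v, B.Adj u v → cv' u ≠ ce s(u, v) := by
  classical
  suffices H : ∀ Y : Finset V, ∃ cv' : V → ℕ, (∀ v, (v ∈ Z ∨ v ∈ Y) → cv' v ∈ Lv v) ∧
      (∀ u v, (u ∈ Z ∨ u ∈ Y) → (v ∈ Z ∨ v ∈ Y) → G.Adj u v → cv' u ≠ cv' v) ∧
      ∀ u v, (u ∈ Z ∨ u ∈ Y) → B.Adj u v → cv' u ≠ ce s(u, v) by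
    obtain ⟨cv', h1, h2, h3⟩ := H univ
    exact ⟨cv', fun v => h1 v (Or.inr (mem_univ _)),
      fun u v => h2 u v (Or.inr (mem_univ _)) (Or.inr (mem_univ _)),
      fun u v => h3 u v (Or.inr (mem_univ _))⟩
  intro Y
  induction Y using Finset.induction_on with
  | empty =>
    refine ⟨cv, ?_, ?_, ?_⟩
    · intro v hv
      exact hcv v (by simpa using hv)
    · intro u v hu hv
      exact hadj u (by simpa using hu) v (by simpa using hv)
    · intro u v hu
      exact hinc u (by simpa using hu) v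
  | insert y Y hy ih =>
    obtain ⟨c, h1, h2, h3⟩ := ih
    by_cases hyZ : y ∈ Z
    · have key : ∀ v, (v ∈ Z ∨ v ∈ insert y Y) → (v ∈ Z ∨ v ∈ Y) := by
        intro v hv
        rw [mem_insert] at hv
        rcases hv with h | rfl | h
        · exact Or.inl h
        · exact Or.inl hyZ
        · exact Or.inr h
      exact ⟨c, fun v hv => h1 v (key v hv), fun u v hu hv => h2 u v (key u hu) (key v hv),
        fun u v hu => h3 u v (key u hu)⟩
    · obtain ⟨a, ha1, ha2⟩ : ∃ a ∈ Lv y,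
          a ∉ (univ.filter (fun w => G.Adj y w)).image c ∪
            (univ.filter (fun w => B.Adj y w)).image (fun w => ce s(y, w)) := by
        apply Finset.exists_mem_notMem_of_card_lt_card
        refine lt_of_le_of_lt (card_union_le _ _) (lt_of_le_of_lt ?_ (hnew y hyZ))
        rw [dg_eq, dg_eq]
        exact Nat.add_le_add card_image_le card_image_le
      rw [mem_union, not_or] at ha2
      have hG : ∀ w, G.Adj y w → c w ≠ a := by
        intro w hw h
        apply ha2.1
        rw [← h]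
        exact mem_image_of_mem _ (mem_filter.2 ⟨mem_univ _, hw⟩)
      have hB : ∀ w, B.Adj y w → ce s(y, w) ≠ a := by
        intro w hw h
        apply ha2.2
        rw [← h]
        exact mem_image.2 ⟨w, mem_filter.2 ⟨mem_univ _, hw⟩, rfl⟩
      have key : ∀ v, v ≠ y → (v ∈ Z ∨ v ∈ insert y Y) → (v ∈ Z ∨ v ∈ Y) := by
        intro v hvy hv
        rw [mem_insert] at hv
        rcases hv with h | h | h
        · exact Or.inl h
        · exact absurd h hvy
        · exact Or.inr h
      refine ⟨Function.update c y a, ?_, ?_, ?_⟩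
      · intro v hv
        by_cases hvy : v = y
        · subst hvy
          rw [Function.update_self]
          exact ha1
        · rw [Function.update_of_ne hvy]
          exact h1 v (key v hvy hv)
      · intro u v hu hv huv
        by_cases huy : u = y
        · subst huy
          rw [Function.update_self, Function.update_of_ne huv.ne.symm]
          exact (hG v huv).symm
        · rw [Function.update_of_ne huy]
          by_cases hvy : v = y
          · subst hvy
            rw [Function.update_self]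
            exact hG u huv.symm
          · rw [Function.update_of_ne hvy]
            exact h2 u v (key u huy hu) (key v hvy hv) huv
      · intro u v hu huv
        by_cases huy : u = y
        · subst huy
          rw [Function.update_self]
          exact (hB v huv).symm
        · rw [Function.update_of_ne huy]
          exact h3 u v (key u huy hu) huv

/-- First the vertices, then the edges. -/
theorem tc_of_edges {V : Type} [Fintype V] (F : SimpleGraph V) (k : ℕ) (hd : ∀ v, dg F v < k)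
    (h : ∀ L : Sym2 V → Finset ℕ, (∀ u v, F.Adj u v → k ≤ (L s(u, v)).card + 2) →
      ∃ c, Ok F L c) : TC F k := by
  intro Lv Le hv he
  obtain ⟨cv, h1, h2, -⟩ := add_vertices F ⊥ Lv (fun _ => 0) ∅ (fun _ => 0)
    (fun v hv => absurd hv (Set.notMem_empty _)) (fun v hv => absurd hv (Set.notMem_empty _))
    (fun v hv => absurd hv (Set.notMem_empty _)) (by
      intro v _
      have h3 : dg (⊥ : SimpleGraph V) v = 0 := dg_bot v
      rw [h3]
      have h4 := hd v
      have h5 := hv v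
      omega)
  obtain ⟨ce, h3, h4⟩ := h (res Set.univ cv Le) (by
    intro u v huv
    exact (he u v huv).trans (card_res_two _ _ _ _ _))
  refine ⟨cv, ce, h1, h2, ⟨?_, h4⟩, ?_⟩
  · intro u v huv
    exact ((mem_res _ _ _ _ _).1 (h3 u v huv)).1
  · intro u v huv
    exact ((mem_res _ _ _ _ _).1 (h3 u v huv)).2 u (Sym2.mem_mk_left _ _) (Set.mem_univ _)

/-- Colour `W` and the edges inside `W`, then the edges leaving `W`, then the remaining vertices,
then the edges of `H`, and finally the remaining ones. -/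
theorem of_parts_total {V : Type} [Fintype V] (G F H : SimpleGraph V) (W : Set V) (D : ℕ)
    (hD : ∀ v, dg G v ≤ D)
    (hF : ∀ u v, F.Adj u v ↔ G.Adj u v ∧ u ∈ W ∧ v ∈ W)
    (hH : ∀ u v, H.Adj u v ↔ G.Adj u v ∧ u ∉ W ∧ v ∉ W ∧ D + 1 ≤ dg G u + dg G v)
    (hcross : ∀ u w, G.Adj u w → u ∉ W → w ∈ W →
      (G.neighborSet u ∩ W).ncard + (G.neighborSet w ∩ W).ncard ≤ D)
    (hout : ∀ u, u ∉ W → dg G u + (G.neighborSet u ∩ W).ncard ≤ D)
    (hcF : TC F (D + 1))
    (hcH : ∀ L' : Sym2 V → Finset ℕ, (∀ u v, H.Adj u v →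
      D ≤ (L' s(u, v)).card + (G.neighborSet u ∩ W).ncard + (G.neighborSet v ∩ W).ncard + 1) →
      ∃ c, Ok H L' c) : TC G (D + 1) := by
  classical
  intro Lv Le hLv hLe
  obtain ⟨cv, ce, hv1, hv2, ⟨he1, he2⟩, hve⟩ :=
    hcF Lv Le hLv (fun u v h => hLe u v ((hF u v).1 h).1)
  let B : SimpleGraph V :=
    { Adj := fun a b => G.Adj a b ∧ (a ∈ W ∨ b ∈ W)
      symm := ⟨fun a b h => ⟨h.1.symm, h.2.symm⟩⟩
      loopless := ⟨fun a h => G.loopless.irrefl a h.1⟩ }
  have hBG : B ≤ G := fun a b h => h.1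
  have hFB : F ≤ B := fun a b h => ⟨((hF a b).1 h).1, Or.inl ((hF a b).1 h).2.1⟩
  have hdF0 : ∀ v, v ∉ W → dg F v = 0 := by
    intro v hv
    rw [dg, Set.ncard_eq_zero (Set.toFinite _)]
    ext w
    simp only [SimpleGraph.mem_neighborSet, Set.mem_empty_iff_false, iff_false]
    intro h
    exact hv ((hF v w).1 h).2.1
  have hdF1 : ∀ v, v ∈ W → dg F v = (G.neighborSet v ∩ W).ncard := by
    intro v hv
    rw [dg]
    congr 1
    ext w
    simp only [SimpleGraph.mem_neighborSet, Set.mem_inter_iff, hF]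
    tauto
  have hdB : ∀ v, v ∉ W → dg B v = (G.neighborSet v ∩ W).ncard := by
    intro v hv
    rw [dg]
    congr 1
    ext w
    show (G.Adj v w ∧ (v ∈ W ∨ w ∈ W)) ↔ _
    simp only [SimpleGraph.mem_neighborSet, Set.mem_inter_iff]
    tauto
  -- the edges leaving `W`
  have hokF : Ok F (res W cv Le) ce := by
    refine ⟨?_, he2⟩
    intro u v huv
    rw [mem_res]
    refine ⟨he1 u v huv, ?_⟩
    intro x hx _
    rcases Sym2.mem_iff.1 hx with rfl | rfl
    · exact hve x v huv
    · rw [Sym2.eq_swap]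
      exact hve x u huv.symm
  obtain ⟨c1, hc1⟩ : ∃ c, Ok B (res W cv Le) c := by
    refine ext F B hFB (fun v => v ∈ W) ?_ _ ?_ ce hokF
    · intro u v h1 h2
      have h3 : ¬ (u ∈ W ∧ v ∈ W) := fun h => h2 ((hF u v).2 ⟨h1.1, h⟩)
      have h4 := h1.2
      tauto
    · intro u v h1 h2
      have h3 : ¬ (u ∈ W ∧ v ∈ W) := fun h => h2 ((hF u v).2 ⟨h1.1, h⟩)
      have h4 := h1.2
      have h5 := hLe u v h1.1
      by_cases hv : v ∈ W
      · have hu : u ∉ W := fun h => h3 ⟨h, hv⟩
        have h6 := card_res_one W cv Le u v hu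
        have h7 := hcross u v h1.1 hu hv
        rw [hdB u hu, hdF1 v hv]
        omega
      · have h6 := card_res_one W cv Le v u hv
        rw [Sym2.eq_swap] at h6
        rw [hdF0 v hv]
        have h7 := dg_mono hBG u
        have h8 := hD u
        omega
  -- the remaining vertices
  obtain ⟨cv', hw1, hw2, hw3⟩ := add_vertices G B Lv c1 W cv (fun v _ => hv1 v)
    (fun u hu v hv huv => hv2 u v ((hF u v).2 ⟨huv, hu, hv⟩))
    (fun u hu v huv => ((mem_res _ _ _ _ _).1 (hc1.1 u v huv)).2 u (Sym2.mem_mk_left _ _) hu)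
    (by
      intro v hv
      rw [hdB v hv]
      have h1 := hout v hv
      have h2 := hLv v
      omega)
  have hc1' : Ok B (res Set.univ cv' Le) c1 := by
    refine ⟨?_, hc1.2⟩
    intro u v huv
    rw [mem_res]
    refine ⟨((mem_res _ _ _ _ _).1 (hc1.1 u v huv)).1, ?_⟩
    intro x hx _
    rcases Sym2.mem_iff.1 hx with rfl | rfl
    · exact hw3 x v huv
    · rw [Sym2.eq_swap]
      exact hw3 x u huv.symm
  have hL2 : ∀ u v, G.Adj u v → D ≤ (res Set.univ cv' Le s(u, v)).card + 1 := by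
    intro u v huv
    have h1 := card_res_two Set.univ cv' Le u v
    have h2 := hLe u v huv
    omega
  -- the edges of `H`
  have hHout : ∀ u v, H.Adj u v → u ∉ W ∧ v ∉ W := fun u v h =>
    ⟨((hH u v).1 h).2.1, ((hH u v).1 h).2.2.1⟩
  obtain ⟨c2, hc2⟩ := hcH (left B (res Set.univ cv' Le) c1) (by
    intro u v huv
    have h1 := card_left B (res Set.univ cv' Le) c1 u v
    have h2 := hL2 u v ((hH u v).1 huv).1
    rw [hdB u (hHout u v huv).1, hdB v (hHout u v huv).2] at h1
    omega)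
  have hle : (B ⊔ H) \ B ≤ H := by
    intro a b h
    rw [SimpleGraph.sdiff_adj, SimpleGraph.sup_adj] at h
    rcases h.1 with h1 | h1
    · exact absurd h1 h.2
    · exact h1
  obtain ⟨c3, hc3⟩ : ∃ c, Ok (B ⊔ H) (res Set.univ cv' Le) c :=
    ok_glue B (B ⊔ H) _ c1 c2 hc1' (ok_mono hle hc2)
  have hBHG : B ⊔ H ≤ G := sup_le hBG (fun a b h => ((hH a b).1 h).1)
  obtain ⟨c, hc⟩ := greedy G (B ⊔ H) hBHG (res Set.univ cv' Le) ⟨c3, hc3⟩ (by
    intro u v h1 h2
    have h3 : ¬ B.Adj u v := fun h => h2 (Or.inl h)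
    have h4 : ¬ H.Adj u v := fun h => h2 (Or.inr h)
    have h5 := hL2 u v h1
    have hu : u ∉ W := fun h => h3 ⟨h1, Or.inl h⟩
    have hv : v ∉ W := fun h => h3 ⟨h1, Or.inr h⟩
    have h6 : ¬ (D + 1 ≤ dg G u + dg G v) := fun h => h4 ((hH u v).2 ⟨h1, hu, hv, h⟩)
    omega)
  refine ⟨cv', c, hw1, hw2, ⟨?_, hc.2⟩, ?_⟩
  · intro u v huv
    exact ((mem_res _ _ _ _ _).1 (hc.1 u v huv)).1
  · intro u v huv
    exact ((mem_res _ _ _ _ _).1 (hc.1 u v huv)).2 u (Sym2.mem_mk_left _ _) (Set.mem_univ _)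

end Pool.Agent.N410.LD
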